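import Pool.Agent.H67.AF.SettleF
import Pool.Agent.H67.SG.Root

/-! # AF.AllF : placing all hubs (about 200 lines; compare `H67.AS.All`)

Root the tree (`tree_root`, any root): `rk`, `par`. Induction over `j`: there are `X`, `φ`, `Z` with `X₁ ⊆ X`, `φ = φ₁` on `X₁`, `PlF`, `NoB`, `CalmF`, `CritF … Z`, every hub `h` with `rk h < j` is in `X`, and every `x ∈ X` is in `X₁`, in `Z` (then of degree `< D`), or a hub with `rk x < j`.
Start: `X₁`, `φ₁`, `Z = ∅`; `wtM = 0` because `redM` is empty (`hlow`). Step: let `x ∉ X` be the hub with `rk x = j` (if there is one; `x ∉ B₀` since `B₀ ⊆ X₁`). Its neighbours `y ∈ X` have `φ y ∈ V` (otherwise `x ∈ X` by `closed`), at most `ρ` red neighbours in `V` each; they are in `X₁`, in `Z` (at most `16 r` by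
`crit_bound_f`), or hubs with `rk y < j = rk x`, so `y = par x` by `uniq`: at most `c₁ + 16 r + 1` (those of `X₁` lie in `V`). `|X| ≤ |X₁| + |hubs| + 16 r`. So there is a position `p ∈ G`, unused and blue to the placed neighbours (`h1`). `plf_insert` with `y = x`; `wtM` grows by at most `deg x`, `64 deg x < n`: `4 wtM ≤ n`.
`settle_f` with `t = 16 r + 1 - |Z|`, `c = c₁ + 16 r + 1`. The set `Y` is added to `Z`. At the end (`j` larger than all ranks) all hubs are in `X`. The elements of `lowV` are in `Z` or in `X₁` (at positions in `V`, at most `c₁`). -/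

namespace H67.AF

open SimpleGraph Pool.Agent.H62.Decomp H67.SG H67.AS

private theorem AllF_mem_hubs {n : ℕ} {T : SimpleGraph (Fin n)} {D : ℕ} {x : Fin n} :
    x ∈ hubs T D ↔ D ≤ deg T x := by
  classical
  unfold hubs
  simp

open Classical in
private theorem AllF_low {n : ℕ} {W : Type} {T : SimpleGraph (Fin n)} {V : Finset W} {D : ℕ}
    {X X₁ Z : Finset (Fin n)} {φ φ₁ : Fin n → W} {c₁ : ℕ} (h : ∀ x ∈ X₁, φ x = φ₁ x)
    (hcl : ∀ x ∈ X, x ∈ X₁ ∨ x ∈ Z ∨ x ∈ hubs T D)
    (hc₁ : (X₁.filter (fun x => φ₁ x ∈ V)).card ≤ c₁) :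
    (lowV T V D X φ).card ≤ c₁ + Z.card := by
  have hsub : lowV T V D X φ ⊆ (X₁.filter (fun x => φ₁ x ∈ V)) ∪ Z := by
    intro y hy
    unfold lowV at hy
    obtain ⟨hyX, hyV, hyd⟩ := Finset.mem_filter.1 hy
    rcases hcl y hyX with h1 | h1 | h1
    · refine Finset.mem_union_left _ (Finset.mem_filter.2 ⟨h1, ?_⟩)
      rw [← h y h1]
      exact hyV
    · exact Finset.mem_union_right _ h1
    · exact absurd (AllF_mem_hubs.1 h1) (by omega)
  refine (Finset.card_le_card hsub).trans ((Finset.card_union_le _ _).trans ?_)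
  omega

open Classical in
theorem place_all_f {n : ℕ} {W : Type} {T : SimpleGraph (Fin n)} (hT : T.IsTree) (hn : 1 ≤ n)
    {C : SimpleGraph W} {V U G : Finset W} {B₀ : Finset (Fin n)} {D : ℕ} (hUV : Disjoint V U) (hGV : G ⊆ V)
    (hB64 : ∀ x, x ∉ B₀ → 64 * deg T x < n) (r ρ : ℕ) (hρ : ∀ v ∈ V, dg C v V ≤ ρ)
    (hr : ∀ v ∈ G, dg C v V ≤ r) (X₁ : Finset (Fin n)) (φ₁ : Fin n → W) (hP : PlF T C V U G B₀ D X₁ φ₁)
    (hB : B₀ ⊆ X₁) (hN : NoB C V B₀ X₁ φ₁) (hlow : ∀ x ∈ X₁, x ∉ B₀ → deg T x < D) (c₁ : ℕ)
    (hc₁ : (X₁.filter (fun x => φ₁ x ∈ V)).card ≤ c₁)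
    (h1 : X₁.card + (hubs T D).card + (16 * r + 1) + (c₁ + 16 * r + 1) * ρ < G.card)
    (h2 : 4 * (X₁.card + 2 * (hubs T D).card + (16 * r + 1) + (c₁ + 16 * r + 1) * D) ≤ n) :
    ∃ (X : Finset (Fin n)) (φ : Fin n → W), X₁ ⊆ X ∧ hubs T D ⊆ X ∧
      X.card ≤ X₁.card + (hubs T D).card + (16 * r + 1) ∧ (lowV T V D X φ).card ≤ c₁ + 16 * r + 1 ∧
      PlF T C V U G B₀ D X φ ∧ NoB C V B₀ X φ ∧ CalmF T C V B₀ D X φ := by
  obtain ⟨rk, par, hR⟩ := tree_root T hT ⟨0, hn⟩
  have key : ∀ j : ℕ, ∃ (X : Finset (Fin n)) (φ : Fin n → W) (Z : Finset (Fin n)), X₁ ⊆ X ∧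
      (∀ x ∈ X₁, φ x = φ₁ x) ∧ PlF T C V U G B₀ D X φ ∧ NoB C V B₀ X φ ∧ CalmF T C V B₀ D X φ ∧
      CritF T C V B₀ D X φ Z ∧ (∀ h ∈ hubs T D, rk h < j → h ∈ X) ∧
      ∀ x ∈ X, x ∈ X₁ ∨ x ∈ Z ∨ (x ∈ hubs T D ∧ rk x < j) := by
    intro j
    induction j with
    | zero =>
      refine ⟨X₁, φ₁, ∅, Finset.Subset.refl _, fun _ _ => rfl, hP, hN, ?_, ?_, ?_, fun x hx => Or.inl hx⟩
      · intro v _ _
        have h0 : redM T C V B₀ D X₁ φ₁ v = ∅ := by
          unfold redM
          rw [Finset.filter_eq_empty_iff]
          rintro x hx ⟨-, hxB, hxD, -⟩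
          exact absurd (hlow x hx hxB) (by omega)
        unfold wtM
        rw [h0, Finset.sum_empty]
        omega
      · intro z hz
        exact absurd hz (Finset.notMem_empty z)
      · intro h _ h0
        exact absurd h0 (Nat.not_lt_zero _)
    | succ j ih =>
      obtain ⟨X, φ, Z, hX0, hφ, hPl, hNo, hCa, hCr, hhub, hcl⟩ := ih
      by_cases hex : ∃ x, x ∈ hubs T D ∧ x ∉ X ∧ rk x = j
      · obtain ⟨x, hxh, hxX, hxr⟩ := hex
        have hxB : x ∉ B₀ := fun h => hxX (hX0 (hB h))
        have hZM : Z.card ≤ 16 * r := crit_bound_f hT hPl r hr Z hCr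
        have hXsub : insert x X ⊆ X₁ ∪ Z ∪ hubs T D := by
          intro y hy
          rcases Finset.mem_insert.1 hy with rfl | hy
          · exact Finset.mem_union_right _ hxh
          · rcases hcl y hy with h | h | h
            · exact Finset.mem_union_left _ (Finset.mem_union_left _ h)
            · exact Finset.mem_union_left _ (Finset.mem_union_right _ h)
            · exact Finset.mem_union_right _ h.1
        have hcard : (insert x X).card ≤ X₁.card + Z.card + (hubs T D).card := by
          refine (Finset.card_le_card hXsub).trans ?_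
          refine (Finset.card_union_le _ _).trans ?_
          exact Nat.add_le_add_right (Finset.card_union_le _ _) _
        have hcard2 : X.card ≤ (insert x X).card := Finset.card_le_card (Finset.subset_insert _ _)
        let F : Finset (Fin n) := X.filter (fun y => T.Adj y x)
        have hFV : ∀ y ∈ F, φ y ∈ V := by
          intro y hy
          obtain ⟨hyX, hyx⟩ := Finset.mem_filter.1 hy
          rcases hPl.mem y hyX with h | h
          · exact h
          · exact absurd (hPl.closed y hyX h x hyx) hxX
        have hFc : F.card ≤ c₁ + 16 * r + 1 := by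
          have hFs : F ⊆ (X₁.filter (fun x => φ₁ x ∈ V)) ∪ Z ∪ {par x} := by
            intro y hy
            obtain ⟨hyX, hyx⟩ := Finset.mem_filter.1 hy
            rcases hcl y hyX with h | h | h
            · refine Finset.mem_union_left _ (Finset.mem_union_left _ (Finset.mem_filter.2 ⟨h, ?_⟩))
              rw [← hφ y h]
              exact hFV y hy
            · exact Finset.mem_union_left _ (Finset.mem_union_right _ h)
            · refine Finset.mem_union_right _ (Finset.mem_singleton.2 ?_)
              exact (hR.uniq y x hyx (by rw [hxr]; exact h.2)).2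
          refine (Finset.card_le_card hFs).trans ((Finset.card_union_le _ _).trans ?_)
          have a1 := Finset.card_union_le (X₁.filter (fun x => φ₁ x ∈ V)) Z
          have a2 := Finset.card_singleton (par x)
          omega
        -- a free position
        let Bad : Finset W := X.image φ ∪ F.biUnion (fun y => V.filter (fun w => C.Adj (φ y) w))
        have hBad : Bad.card < G.card := by
          have a1 : Bad.card ≤ (X.image φ).card +
              (F.biUnion (fun y => V.filter (fun w => C.Adj (φ y) w))).card := Finset.card_union_le _ _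
          have a2 : (X.image φ).card ≤ X.card := Finset.card_image_le
          have a3 : (F.biUnion (fun y => V.filter (fun w => C.Adj (φ y) w))).card ≤ F.card * ρ := by
            refine Finset.card_biUnion_le_card_mul _ _ ρ ?_
            intro y hy
            exact hρ _ (hFV y hy)
          have a4 : F.card * ρ ≤ (c₁ + 16 * r + 1) * ρ := Nat.mul_le_mul_right _ hFc
          omega
        obtain ⟨p, hpG, hpB⟩ := Finset.exists_mem_notMem_of_card_lt_card hBad
        have hpf : ∀ y ∈ X, φ y ≠ p := by
          intro y hy h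
          exact hpB (Finset.mem_union_left _ (Finset.mem_image.2 ⟨y, hy, h⟩))
        have hpb : ∀ y ∈ X, T.Adj y x → ¬ C.Adj (φ y) p := by
          intro y hy hyx h
          exact hpB (Finset.mem_union_right _ (Finset.mem_biUnion.2 ⟨y, Finset.mem_filter.2 ⟨hy, hyx⟩,
            Finset.mem_filter.2 ⟨hGV hpG, h⟩⟩))
        have hPl2 := plf_insert hPl hUV x p hxX (hGV hpG) hpf hpb (fun _ => hpG)
          (fun h => absurd h hxB)
        have hNo2 := noB_insert hNo x p hxX hxB
        have hupd : ∀ y ∈ X, Function.update φ x p y = φ y := by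
          intro y hy
          refine Function.update_of_ne ?_ _ _
          rintro rfl
          exact hxX hy
        have hCr2 : CritF T C V B₀ D (insert x X) (Function.update φ x p) Z :=
          critF_mono (Finset.subset_insert x X) hupd hCr
        have hwt : ∀ v ∈ V, (∀ y ∈ insert x X, Function.update φ x p y ≠ v) →
            4 * wtM T C V B₀ D (insert x X) (Function.update φ x p) v ≤ n := by
          intro v hv hun
          have hun2 : ∀ y ∈ X, φ y ≠ v := by
            intro y hy
            rw [← hupd y hy]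
            exact hun y (Finset.mem_insert_of_mem hy)
          have hcv := hCa v hv hun2
          have hw := wtM_insert T C V B₀ D X φ x p hxX v
          have hb := hB64 x hxB
          omega
        have hcl' : ∀ y ∈ insert x X, y ∈ X₁ ∨ y ∈ Z ∨ y ∈ hubs T D := by
          intro y hy
          rcases Finset.mem_insert.1 hy with rfl | hy
          · exact Or.inr (Or.inr hxh)
          · rcases hcl y hy with h | h | h
            · exact Or.inl h
            · exact Or.inr (Or.inl h)
            · exact Or.inr (Or.inr h.1)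
        have hφ' : ∀ y ∈ X₁, Function.update φ x p y = φ₁ y := by
          intro y hy
          rw [hupd y (hX0 hy), hφ y hy]
        have hlow' := AllF_low hφ' hcl' hc₁
        have hcc : 4 * ((insert x X).card + (16 * r + 1 - Z.card) + (hubs T D).card +
            (c₁ + 16 * r + 1) * D) ≤ n := by
          omega
        obtain ⟨Y, ψ, hdis, hψ, hYd, hPl3, hNo3, hCr3, hCa3⟩ := settle_f hT hn hUV r hr
          (c₁ + 16 * r + 1) (16 * r + 1 - Z.card) (insert x X) (Function.update φ x p) Z hPl2
          (hB.trans (hX0.trans (Finset.subset_insert x X))) hNo2 hCr2 (by omega) hwt (by omega) hcc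
        refine ⟨insert x X ∪ Y, ψ, Z ∪ Y, ?_, ?_, hPl3, hNo3, hCa3, hCr3, ?_, ?_⟩
        · exact hX0.trans ((Finset.subset_insert x X).trans Finset.subset_union_left)
        · intro y hy
          rw [hψ y (Finset.mem_insert_of_mem (hX0 hy)), hφ' y hy]
        · intro h hh hj
          rcases Nat.lt_succ_iff_lt_or_eq.1 hj with hlt | heq
          · exact Finset.mem_union_left _ (Finset.mem_insert_of_mem (hhub h hh hlt))
          · have : h = x := hR.inj (by rw [heq, hxr])
            rw [this]
            exact Finset.mem_union_left _ (Finset.mem_insert_self _ _)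
        · intro y hy
          rcases Finset.mem_union.1 hy with hy | hy
          · rcases Finset.mem_insert.1 hy with rfl | hy
            · exact Or.inr (Or.inr ⟨hxh, by omega⟩)
            · rcases hcl y hy with h | h | h
              · exact Or.inl h
              · exact Or.inr (Or.inl (Finset.mem_union_left _ h))
              · exact Or.inr (Or.inr ⟨h.1, by omega⟩)
          · exact Or.inr (Or.inl (Finset.mem_union_right _ hy))
      · push Not at hex
        refine ⟨X, φ, Z, hX0, hφ, hPl, hNo, hCa, hCr, ?_, ?_⟩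
        · intro h hh hj
          rcases Nat.lt_succ_iff_lt_or_eq.1 hj with hlt | heq
          · exact hhub h hh hlt
          · by_contra hcon
            exact hex h hh hcon heq
        · intro y hy
          rcases hcl y hy with h | h | h
          · exact Or.inl h
          · exact Or.inr (Or.inl h)
          · exact Or.inr (Or.inr ⟨h.1, by omega⟩)
  obtain ⟨X, φ, Z, hX0, hφ, hPl, hNo, hCa, hCr, hhub, hcl⟩ := key (Finset.univ.sup rk + 1)
  have hZM : Z.card ≤ 16 * r := crit_bound_f hT hPl r hr Z hCr
  refine ⟨X, φ, hX0, ?_, ?_, ?_, hPl, hNo, hCa⟩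
  · intro h hh
    exact hhub h hh (Nat.lt_succ_of_le (Finset.le_sup (f := rk) (Finset.mem_univ h)))
  · have hXsub : X ⊆ X₁ ∪ Z ∪ hubs T D := by
      intro y hy
      rcases hcl y hy with h | h | h
      · exact Finset.mem_union_left _ (Finset.mem_union_left _ h)
      · exact Finset.mem_union_left _ (Finset.mem_union_right _ h)
      · exact Finset.mem_union_right _ h.1
    have hcard : X.card ≤ X₁.card + Z.card + (hubs T D).card := by
      refine (Finset.card_le_card hXsub).trans ?_
      refine (Finset.card_union_le _ _).trans ?_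
      exact Nat.add_le_add_right (Finset.card_union_le _ _) _
    omega
  · have := AllF_low hφ (fun y hy => (hcl y hy).imp_right (fun h => h.imp_right And.left)) hc₁
    omega

end H67.AF
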