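import Pool.Agent.H67.AS.Def
import Pool.Agent.H67.SG.TDeg

/-! # AF.Alt : trees without a vertex with many leaves are not nearly dominated (about 100 lines)

`|S| ≤ s`, `N` = vertices outside `S` adjacent to `S`, `O = outs T S`, so `|S| + |N| + |O| = n`. At most `s L` vertices of `N` have degree one. `∑_{S} deg ≥ |N|` (every vertex of `N` is adjacent to some vertex of `S`), `∑_{N} deg ≥ 2 |N| - s L`, `∑_{O} deg ≥ |O|` (`deg_pos`). The sum of all degrees is `2 n - 2`
(`sum_deg`), so `3 |N| - s L + |O| ≤ 2 (|S| + |N| + |O|)`, `|N| ≤ |O| + 2 s + s L`, `n ≤ 2 |O| + (3 + L) s ≤ 3 |O|` for `n ≥ 3 (3 + L) s + 2`. -/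

namespace H67.AF

open SimpleGraph Pool.Agent.H62.Decomp H67.SG H67.AS

open Classical in
private theorem Alt_deg {n : ℕ} (T : SimpleGraph (Fin n)) (v : Fin n) :
    deg T v = (Finset.univ.filter (fun y => T.Adj v y)).card := by
  unfold deg dg
  congr

open Classical in
theorem undom_of_few_leaves (s L : ℕ) : ∃ n₀ : ℕ, ∀ n : ℕ, n₀ ≤ n → ∀ T : SimpleGraph (Fin n), T.IsTree →
    (∀ x, (Finset.univ.filter (fun y => T.Adj x y ∧ deg T y = 1)).card ≤ L) → Undom T s 3 := by
  refine ⟨3 * ((3 + L) * s) + 2, fun n hn T hT hL S hS => ?_⟩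
  have hn2 : 2 ≤ n := by omega
  obtain ⟨N, hN⟩ : ∃ N, N = Finset.univ.filter (fun x => x ∉ S ∧ ∃ y ∈ S, T.Adj y x) := ⟨_, rfl⟩
  have hNm : ∀ x, x ∈ N ↔ x ∉ S ∧ ∃ y ∈ S, T.Adj y x := by
    intro x; rw [hN, Finset.mem_filter]; simp
  have hOm : ∀ x, x ∈ outs T S ↔ x ∉ S ∧ ∀ y ∈ S, ¬ T.Adj y x := by
    intro x; unfold outs; rw [Finset.mem_filter]; simp
  have hd1 : Disjoint S N := by
    rw [Finset.disjoint_left]
    intro x hx hxN
    exact ((hNm x).1 hxN).1 hx
  have hd2 : Disjoint (S ∪ N) (outs T S) := by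
    rw [Finset.disjoint_left]
    intro x hx hxO
    rw [hOm] at hxO
    rw [Finset.mem_union] at hx
    rcases hx with hx | hx
    · exact hxO.1 hx
    · obtain ⟨-, y, hy, hyx⟩ := (hNm x).1 hx
      exact hxO.2 y hy hyx
  have hun : (S ∪ N) ∪ outs T S = Finset.univ := by
    ext x
    rw [Finset.mem_union, Finset.mem_union, hNm, hOm]
    simp only [Finset.mem_univ, iff_true]
    by_cases hx : x ∈ S
    · exact Or.inl (Or.inl hx)
    · by_cases h : ∃ y ∈ S, T.Adj y x
      · exact Or.inl (Or.inr ⟨hx, h⟩)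
      · push Not at h
        exact Or.inr ⟨hx, h⟩
  have hcard : S.card + N.card + (outs T S).card = n := by
    rw [← Finset.card_union_of_disjoint hd1, ← Finset.card_union_of_disjoint hd2, hun,
      Finset.card_univ, Fintype.card_fin]
  have hsum : ∑ x ∈ S, deg T x + ∑ x ∈ N, deg T x + ∑ x ∈ outs T S, deg T x + 2 = 2 * n := by
    rw [← Finset.sum_union hd1, ← Finset.sum_union hd2, hun]
    exact sum_deg T hT
  have h1 : N.card ≤ ∑ x ∈ S, deg T x := by
    have h2 : N ⊆ S.biUnion (fun y => Finset.univ.filter (fun x => T.Adj y x)) := by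
      intro x hx
      obtain ⟨-, y, hy, hyx⟩ := (hNm x).1 hx
      rw [Finset.mem_biUnion]
      exact ⟨y, hy, by simpa using hyx⟩
    calc N.card ≤ _ := Finset.card_le_card h2
      _ ≤ ∑ y ∈ S, (Finset.univ.filter (fun x => T.Adj y x)).card := Finset.card_biUnion_le
      _ = ∑ x ∈ S, deg T x := Finset.sum_congr rfl fun y _ => (Alt_deg T y).symm
  have h3 : (N.filter (fun x => deg T x = 1)).card ≤ s * L := by
    have h2 : N.filter (fun x => deg T x = 1) ⊆
        S.biUnion (fun y => Finset.univ.filter (fun x => T.Adj y x ∧ deg T x = 1)) := by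
      intro x hx
      rw [Finset.mem_filter] at hx
      obtain ⟨-, y, hy, hyx⟩ := (hNm x).1 hx.1
      rw [Finset.mem_biUnion]
      exact ⟨y, hy, by simpa using ⟨hyx, hx.2⟩⟩
    calc _ ≤ _ := Finset.card_le_card h2
      _ ≤ ∑ y ∈ S, (Finset.univ.filter (fun x => T.Adj y x ∧ deg T x = 1)).card :=
        Finset.card_biUnion_le
      _ ≤ ∑ _y ∈ S, L := Finset.sum_le_sum fun y _ => hL y
      _ = S.card * L := by rw [Finset.sum_const, smul_eq_mul]
      _ ≤ s * L := Nat.mul_le_mul_right L hS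
  have h4 : 2 * N.card ≤ ∑ x ∈ N, deg T x + (N.filter (fun x => deg T x = 1)).card := by
    rw [Finset.card_filter, ← Finset.sum_add_distrib]
    calc 2 * N.card = ∑ _x ∈ N, 2 := by rw [Finset.sum_const, smul_eq_mul, mul_comm]
      _ ≤ _ := Finset.sum_le_sum fun x _ => by
        have := deg_pos T hT hn2 x
        split_ifs <;> omega
  have h5 : (outs T S).card ≤ ∑ x ∈ outs T S, deg T x := by
    calc (outs T S).card = ∑ _x ∈ outs T S, 1 := by rw [Finset.sum_const, smul_eq_mul, mul_one]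
      _ ≤ _ := Finset.sum_le_sum fun x _ => deg_pos T hT hn2 x
  have h6 : (3 + L) * s = 3 * s + s * L := by ring
  omega

end H67.AF
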