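import Pool.Agent.H67.AF.InsF

/-! # AF.BigF : placing the vertices of B₀ (about 150 lines)

Induction over the subsets of `B₀ \ X₀` (or over the number of vertices of `B₀` not yet placed): as long as some `x ∈ B₀` is not placed choose for it a position in `G` which is different from the used ones (at most `|X₀| + |B₀|`), not a red neighbour of the position of a placed neighbour of `x` (all positions in `V` used so far
are in `G`, so at most `r` red neighbours in `V` each; a placed neighbour at a position of `U` would give `x ∈ X` by `closed`), and not a red neighbour of a vertex `v ∈ V` which is a red neighbour of a placed vertex of `B₀`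
(at most `|B₀| r` such `v`, each with at most `ρ` red neighbours in `V`): possible by `h1`. Then `plf_insert`. -/

namespace H67.AF

open SimpleGraph Pool.Agent.H62.Decomp H67.SG H67.AS

private theorem BigF_pos {n : ℕ} {W : Type} {T : SimpleGraph (Fin n)} {C : SimpleGraph W} {V U G : Finset W}
    {B₀ : Finset (Fin n)} {D : ℕ} (hGV : G ⊆ V) (r ρ : ℕ) (hρ : ∀ v ∈ V, dg C v V ≤ ρ)
    (hr : ∀ v ∈ G, dg C v V ≤ r) (X : Finset (Fin n)) (φ : Fin n → W) (hP : PlF T C V U G B₀ D X φ)
    (hG : ∀ x ∈ X, φ x ∈ V → φ x ∈ G)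
    (h1 : X.card * (r + 1) + B₀.card * r * ρ < G.card) (y : Fin n) (hy : y ∉ X) :
    ∃ p ∈ G, (∀ x ∈ X, φ x ≠ p) ∧ (∀ x ∈ X, T.Adj x y → ¬ C.Adj (φ x) p) ∧
      ∀ v ∈ V, C.Adj p v → redB C V B₀ X φ v = ∅ := by
  classical
  set XV : Finset (Fin n) := X.filter (fun x => φ x ∈ V) with hXV
  set R1 : Finset W := XV.biUnion (fun x => V.filter (fun v => C.Adj (φ x) v)) with hR1
  set R2 : Finset W := (XV.filter (fun x => x ∈ B₀)).biUnion (fun x => V.filter (fun v => C.Adj (φ x) v)) with hR2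
  set R3 : Finset W := R2.biUnion (fun v => V.filter (fun w => C.Adj v w)) with hR3
  have hXVc : XV.card ≤ X.card := Finset.card_filter_le _ _
  have hnb : ∀ x ∈ XV, (V.filter (fun v => C.Adj (φ x) v)).card ≤ r := by
    intro x hx
    rw [hXV, Finset.mem_filter] at hx
    exact hr _ (hG x hx.1 hx.2)
  have c1 : R1.card ≤ X.card * r := by
    refine (Finset.card_biUnion_le_card_mul _ _ r hnb).trans ?_
    exact Nat.mul_le_mul_right _ hXVc
  have c2 : R2.card ≤ B₀.card * r := by
    refine (Finset.card_biUnion_le_card_mul _ _ r (fun x hx => hnb x (Finset.mem_filter.1 hx).1)).trans ?_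
    refine Nat.mul_le_mul_right _ (Finset.card_le_card ?_)
    intro x hx
    exact (Finset.mem_filter.1 hx).2
  have hR2V : R2 ⊆ V := by
    intro v hv
    rw [hR2, Finset.mem_biUnion] at hv
    obtain ⟨x, _, hv⟩ := hv
    exact (Finset.mem_filter.1 hv).1
  have c3 : R3.card ≤ B₀.card * r * ρ := by
    refine (Finset.card_biUnion_le_card_mul _ _ ρ (fun v hv => hρ v (hR2V hv))).trans ?_
    exact Nat.mul_le_mul_right _ c2
  have c0 : (X.image φ).card ≤ X.card := Finset.card_image_le
  have hlt : ((X.image φ) ∪ R1 ∪ R3).card < G.card := by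
    have h2 : ((X.image φ) ∪ R1 ∪ R3).card ≤ X.card + X.card * r + B₀.card * r * ρ := by
      refine (Finset.card_union_le _ _).trans ?_
      refine Nat.add_le_add ((Finset.card_union_le _ _).trans (Nat.add_le_add c0 c1)) c3
    have h3 : X.card * (r + 1) = X.card + X.card * r := by ring
    omega
  obtain ⟨p, hpG, hp⟩ : ∃ p ∈ G, p ∉ (X.image φ) ∪ R1 ∪ R3 := by
    by_contra hcon
    push Not at hcon
    exact absurd (Finset.card_le_card (fun p hp => hcon p hp)) (by omega)
  rw [Finset.mem_union, Finset.mem_union, not_or, not_or] at hp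
  obtain ⟨⟨hp0, hp1⟩, hp3⟩ := hp
  refine ⟨p, hpG, ?_, ?_, ?_⟩
  · intro x hx he
    exact hp0 (Finset.mem_image.2 ⟨x, hx, he⟩)
  · intro x hx hxy hadj
    rcases hP.mem x hx with h | h
    · apply hp1
      rw [hR1, Finset.mem_biUnion]
      exact ⟨x, Finset.mem_filter.2 ⟨hx, h⟩, Finset.mem_filter.2 ⟨hGV hpG, hadj⟩⟩
    · exact hy (hP.closed x hx h y hxy)
  · intro v hv hpv
    rw [Finset.eq_empty_iff_forall_notMem]
    intro x hx
    unfold redB at hx
    rw [Finset.mem_filter] at hx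
    obtain ⟨hxX, hxV, hxB, hxv⟩ := hx
    apply hp3
    rw [hR3, Finset.mem_biUnion]
    refine ⟨v, ?_, Finset.mem_filter.2 ⟨hGV hpG, hpv.symm⟩⟩
    rw [hR2, Finset.mem_biUnion]
    exact ⟨x, Finset.mem_filter.2 ⟨Finset.mem_filter.2 ⟨hxX, hxV⟩, hxB⟩, Finset.mem_filter.2 ⟨hv, hxv⟩⟩

theorem place_B {n : ℕ} {W : Type} {T : SimpleGraph (Fin n)} {C : SimpleGraph W} {V U G : Finset W}
    {B₀ : Finset (Fin n)} {D : ℕ} (hUV : Disjoint V U) (hGV : G ⊆ V) (r ρ : ℕ) (hρ : ∀ v ∈ V, dg C v V ≤ ρ)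
    (hr : ∀ v ∈ G, dg C v V ≤ r) (X₀ : Finset (Fin n)) (φ₀ : Fin n → W) (hP : PlF T C V U G B₀ D X₀ φ₀)
    (hG : ∀ x ∈ X₀, φ₀ x ∈ V → φ₀ x ∈ G)
    (h1 : (X₀.card + B₀.card) * (r + 1) + B₀.card * r * ρ < G.card) :
    ∃ (X : Finset (Fin n)) (φ : Fin n → W), X₀ ⊆ X ∧ B₀ ⊆ X ∧ X ⊆ X₀ ∪ B₀ ∧ (∀ x ∈ X₀, φ x = φ₀ x) ∧
      PlF T C V U G B₀ D X φ := by
  classical
  have key : ∀ k : ℕ, ∀ (X : Finset (Fin n)) (φ : Fin n → W), (B₀ \ X).card = k → X₀ ⊆ X →
      X ⊆ X₀ ∪ B₀ → (∀ x ∈ X₀, φ x = φ₀ x) → PlF T C V U G B₀ D X φ → (∀ x ∈ X, φ x ∈ V → φ x ∈ G) →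
      ∃ (X : Finset (Fin n)) (φ : Fin n → W), X₀ ⊆ X ∧ B₀ ⊆ X ∧ X ⊆ X₀ ∪ B₀ ∧ (∀ x ∈ X₀, φ x = φ₀ x) ∧
        PlF T C V U G B₀ D X φ := by
    intro k
    induction k with
    | zero =>
      intro X φ hk hX1 hX2 hφ hPX _
      refine ⟨X, φ, hX1, ?_, hX2, hφ, hPX⟩
      rw [Finset.card_eq_zero, Finset.sdiff_eq_empty_iff_subset] at hk
      exact hk
    | succ k ih =>
      intro X φ hk hX1 hX2 hφ hPX hGX
      have hne : (B₀ \ X).Nonempty := by
        rw [← Finset.card_pos]
        omega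
      obtain ⟨y, hy⟩ := hne
      rw [Finset.mem_sdiff] at hy
      have hcard : X.card ≤ X₀.card + B₀.card := (Finset.card_le_card hX2).trans (Finset.card_union_le _ _)
      obtain ⟨p, hpG, hfree, hblue, hbig⟩ := BigF_pos (T := T) (U := U) (D := D) (B₀ := B₀) hGV r ρ hρ hr X φ hPX hGX
        (by
          have h2 : X.card * (r + 1) ≤ (X₀.card + B₀.card) * (r + 1) := Nat.mul_le_mul_right _ hcard
          omega) y hy.2
      have hnew := plf_insert hPX hUV y p hy.2 (hGV hpG) hfree hblue (fun _ => hpG) (fun _ => hbig)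
      refine ih (insert y X) (Function.update φ y p) ?_ ?_ ?_ ?_ hnew ?_
      · have h2 : B₀ \ insert y X = (B₀ \ X).erase y := by
          ext x
          simp only [Finset.mem_sdiff, Finset.mem_insert, Finset.mem_erase, not_or]
          tauto
        rw [h2, Finset.card_erase_of_mem (Finset.mem_sdiff.2 hy), hk]
        rfl
      · exact hX1.trans (Finset.subset_insert _ _)
      · exact Finset.insert_subset (Finset.mem_union_right _ hy.1) hX2
      · intro x hx
        have hxy : x ≠ y := by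
          rintro rfl
          exact hy.2 (hX1 hx)
        rw [Function.update_of_ne hxy]
        exact hφ x hx
      · intro x hx hxV
        rcases Finset.mem_insert.1 hx with h | h
        · subst h
          rw [Function.update_self]
          exact hpG
        · have hxy : x ≠ y := by
            rintro rfl
            exact hy.2 h
          rw [Function.update_of_ne hxy] at hxV ⊢
          exact hGX x h hxV
  exact key (B₀ \ X₀).card X₀ φ₀ rfl (Finset.Subset.refl _) Finset.subset_union_left (fun _ _ => rfl) hP hG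

end H67.AF
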