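import Pool.Agent.H67.AF.Def

/-! # AF.ContF : G and members of B(G) in the configuration HasF (about 150 lines; compare `H57.SD.ContS`, `H57.SD.MemS`)

`c` colouring with `q + 1` colours, `i ≠ j` two of them, `F` = the graph induced by their union. `cont_F`: with `m = card V`, `num : V ≃ Fin m`: the vertices coloured `i` or `j` go to `f`, the other `q - 1` colours correspond bijectively to the indices `l ≠ i'` of `Fin q` (the number of colours `≠ i, j` is `q - 1`, the number of `l ≠ i'` is `q - 1`),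
`x` goes to element number `num x` of `Z l`. Injective: the range of `f` and the `Z l` are pairwise disjoint (completely joined). `member_F`: for `q = 1` the configuration `HasF F 1 m C` gives `F ⊑ C`; the colouring is surjective because `χ(G) = k` (as in `MemS`). -/

namespace H67.AF

open SimpleGraph Pool.Agent.H62.Decomp H67.SG H67.AS

theorem cont_F {V : Type} [Fintype V] (G : SimpleGraph V) (q : ℕ) (c : G.Coloring (Fin (q + 1)))
    (i j : Fin (q + 1)) (hij : i ≠ j) {W : Type} (C : SimpleGraph W)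
    (h : HasF (G.induce {x | c x = i ∨ c x = j}) q (Fintype.card V) C) : G ⊑ C := by
  classical
  obtain ⟨i', f, Z, hf, hfa, hZ, h1, h2⟩ := h
  have hcard : Fintype.card {l : Fin (q + 1) // l ≠ i ∧ l ≠ j} ≤
      Fintype.card {l : Fin q // l ≠ i'} := by
    rw [Fintype.card_subtype, Fintype.card_subtype]
    have e1 : (Finset.univ.filter fun l : Fin (q + 1) => l ≠ i ∧ l ≠ j) =
        (Finset.univ.erase i).erase j := by
      ext l
      simp [and_comm]
    have e2 : (Finset.univ.filter fun l : Fin q => l ≠ i') = Finset.univ.erase i' := by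
      ext l
      simp
    rw [e1, e2, Finset.card_erase_of_mem (Finset.mem_erase.2 ⟨hij.symm, Finset.mem_univ _⟩),
      Finset.card_erase_of_mem (Finset.mem_univ _), Finset.card_erase_of_mem (Finset.mem_univ _)]
    simp
  obtain ⟨σ⟩ := Function.Embedding.nonempty_of_card_le hcard
  have he : ∀ l : {l : Fin q // l ≠ i'}, Nonempty (V ↪ Z l.1) := fun l =>
    Function.Embedding.nonempty_of_card_le (by rw [Fintype.card_coe, hZ l.1 l.2])
  obtain ⟨e⟩ : Nonempty (∀ l : {l : Fin q // l ≠ i'}, V ↪ Z l.1) := Classical.nonempty_pi.2 he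
  have hφ : ∀ x : V, ∃ w : W, (∀ hx : c x = i ∨ c x = j, w = f ⟨x, hx⟩) ∧
      ∀ hx : c x ≠ i ∧ c x ≠ j, w = e (σ ⟨c x, hx⟩) x := by
    intro x
    by_cases hx : c x = i ∨ c x = j
    · exact ⟨f ⟨x, hx⟩, fun _ => rfl, fun h => absurd hx (not_or.2 h)⟩
    · exact ⟨e (σ ⟨c x, not_or.1 hx⟩) x, fun h => absurd h hx, fun _ => rfl⟩
  choose φ hφ1 hφ2 using hφ
  have hmZ : ∀ x (hx : c x ≠ i ∧ c x ≠ j), φ x ∈ Z (σ ⟨c x, hx⟩).1 := fun x hx => by
    rw [hφ2 x hx]
    exact (e (σ ⟨c x, hx⟩) x).2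
  have dfZ : ∀ (l : {l : Fin q // l ≠ i'}) a w, w = f a → w ∈ Z l.1 → False :=
    fun l a w hw hw' => (h1 l.1 l.2 w hw' a).ne hw.symm
  have dZZ : ∀ (l l' : {l : Fin q // l ≠ i'}) w, l ≠ l' → w ∈ Z l.1 → w ∈ Z l'.1 → False :=
    fun l l' w hll hw hw' =>
      (h2 l.1 l'.1 l.2 l'.2 (fun h => hll (Subtype.ext h)) w hw w hw').ne rfl
  refine contained_of_map φ ?_ ?_
  · intro x y hxy
    by_cases hx : c x = i ∨ c x = j <;> by_cases hy : c y = i ∨ c y = j
    · rw [hφ1 x hx, hφ1 y hy] at hxy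
      exact congrArg Subtype.val (hf hxy)
    · exact (dfZ _ _ _ (hφ1 x hx) (hxy ▸ hmZ y (not_or.1 hy))).elim
    · exact (dfZ _ _ _ (hφ1 y hy) (hxy ▸ hmZ x (not_or.1 hx))).elim
    · have hx' := not_or.1 hx
      have hy' := not_or.1 hy
      by_cases hll : c x = c y
      · have h3 : (⟨c x, hx'⟩ : {l : Fin (q + 1) // l ≠ i ∧ l ≠ j}) = ⟨c y, hy'⟩ :=
          Subtype.ext hll
        rw [hφ2 x hx', hφ2 y hy', h3] at hxy
        exact (e _).injective (Subtype.ext hxy)
      · refine (dZZ (σ ⟨c x, hx'⟩) (σ ⟨c y, hy'⟩) (φ x) ?_ (hmZ x hx')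
          (hxy ▸ hmZ y hy')).elim
        intro h
        exact hll (congrArg Subtype.val (σ.injective h))
  · intro x y hxy
    have hne : c x ≠ c y := c.valid hxy
    by_cases hx : c x = i ∨ c x = j <;> by_cases hy : c y = i ∨ c y = j
    · rw [hφ1 x hx, hφ1 y hy]
      exact hfa _ _ hxy
    · rw [hφ1 x hx]
      exact h1 _ (σ ⟨c y, not_or.1 hy⟩).2 _ (hmZ y (not_or.1 hy)) _
    · rw [hφ1 y hy]
      exact (h1 _ (σ ⟨c x, not_or.1 hx⟩).2 _ (hmZ x (not_or.1 hx)) _).symm
    · have hx' := not_or.1 hx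
      have hy' := not_or.1 hy
      refine h2 _ _ (σ ⟨c x, hx'⟩).2 (σ ⟨c y, hy'⟩).2 ?_ _ (hmZ x hx') _ (hmZ y hy')
      intro h
      exact hne (congrArg Subtype.val (σ.injective (Subtype.ext h)))

theorem member_F {V : Type} [Fintype V] (G : SimpleGraph V) (k : ℕ) (hk : G.chromaticNumber = k)
    (c : G.Coloring (Fin k)) (i j : Fin k) (hij : i ≠ j) {W : Type} (C : SimpleGraph W) (m : ℕ)
    (h : HasF (G.induce {x | c x = i ∨ c x = j}) 1 m C) : ContainsMember G C := by
  classical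
  have hk' : G.chromaticNumber.toNat = k := by rw [hk]; rfl
  subst hk'
  have hsurj : Function.Surjective c := by
    have h2 := (card_le_chromaticNumber_iff_forall_surjective (G := G)
      (α := Fin G.chromaticNumber.toNat)).mp
    exact h2 (by rw [Fintype.card_fin, ← hk]) c
  obtain ⟨_, f, _, hf, hfa, -⟩ := h
  exact ⟨c, i, j, hsurj, hij, contained_of_map f (fun _ _ h => hf h) (fun a b h => hfa a b h)⟩

end H67.AF
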