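import Mathlib
import Pool.Agent.H67.SG.Def
import Pool.Agent.H67.AS.Def

/-! # AF.Def : definitions for the theorem on graphs with a forest in the decomposition class

`C` is always the graph of the red edges, `Cᶜ` the blue graph, `T` a tree on `Fin n`; `dg`, `nd`, `deg` as in `H67.SG.Def`, `hubs`, `avail`, `outs`, `Undom` as
in `H67.AS.Def`. `B₀` = a bounded set of vertices of `T` containing all vertices of degree at least `n / 64`. A partial placement is a set `X` of vertices of `T` together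
with a map `φ` (only its values on `X` matter) into the positions. `V` = main set of positions, `U` = a bounded set of exceptional positions outside `V`, `G ⊆ V` =
positions with at most `r` red neighbours in `V` (`r` a constant). -/

namespace H67.AF

open SimpleGraph Pool.Agent.H62.Decomp H67.SG H67.AS

universe u v

/-- `C` contains `F` and `q - 1` sets of `m` vertices, different pieces completely joined -/
def HasF {A : Type u} {W : Type v} (F : SimpleGraph A) (q m : ℕ) (C : SimpleGraph W) : Prop :=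
  ∃ (i : Fin q) (f : A → W) (Z : Fin q → Finset W), Function.Injective f ∧
    (∀ a b, F.Adj a b → C.Adj (f a) (f b)) ∧ (∀ j, j ≠ i → (Z j).card = m) ∧
    (∀ j, j ≠ i → ∀ z ∈ Z j, ∀ a, C.Adj (f a) z) ∧
    ∀ j l, j ≠ i → l ≠ i → j ≠ l → ∀ y ∈ Z j, ∀ z ∈ Z l, C.Adj y z

/-- every nonempty subset of `V` has a vertex with less than `a` neighbours in the subset -/
def Degen {W : Type u} (C : SimpleGraph W) (V : Finset W) (a : ℕ) : Prop :=
  ∀ S : Finset W, S ⊆ V → S.Nonempty → ∃ x ∈ S, dg C x S < a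

open Classical in
/-- the vertices of `B₀` whose positions are red neighbours of `v` -/
noncomputable def redB {n : ℕ} {W : Type} (C : SimpleGraph W) (V : Finset W) (B₀ X : Finset (Fin n))
    (φ : Fin n → W) (v : W) : Finset (Fin n) :=
  X.filter (fun x => φ x ∈ V ∧ x ∈ B₀ ∧ C.Adj (φ x) v)

open Classical in
/-- the hubs outside `B₀` whose positions are red neighbours of `v` -/
noncomputable def redM {n : ℕ} {W : Type} (T : SimpleGraph (Fin n)) (C : SimpleGraph W) (V : Finset W)
    (B₀ : Finset (Fin n)) (D : ℕ) (X : Finset (Fin n)) (φ : Fin n → W) (v : W) : Finset (Fin n) :=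
  X.filter (fun x => φ x ∈ V ∧ x ∉ B₀ ∧ D ≤ deg T x ∧ C.Adj (φ x) v)

/-- their total degree -/
noncomputable def wtM {n : ℕ} {W : Type} (T : SimpleGraph (Fin n)) (C : SimpleGraph W) (V : Finset W)
    (B₀ : Finset (Fin n)) (D : ℕ) (X : Finset (Fin n)) (φ : Fin n → W) (v : W) : ℕ :=
  ∑ x ∈ redM T C V B₀ D X φ v, deg T x

open Classical in
/-- the vertices of small degree which lie in `V` -/
noncomputable def lowV {n : ℕ} {W : Type} (T : SimpleGraph (Fin n)) (V : Finset W) (D : ℕ)
    (X : Finset (Fin n)) (φ : Fin n → W) : Finset (Fin n) :=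
  X.filter (fun x => φ x ∈ V ∧ deg T x < D)

/-- a partial placement: injective, positions in `V ∪ U`, all positions of `U` are used and the vertices placed there have all
their neighbours in `X`, no edge of `T` inside `X` is red, hubs and the vertices of `B₀` are placed in `G`, no position of `V` is red to
two vertices of `B₀` -/
structure PlF {n : ℕ} {W : Type} (T : SimpleGraph (Fin n)) (C : SimpleGraph W) (V U G : Finset W)
    (B₀ : Finset (Fin n)) (D : ℕ) (X : Finset (Fin n)) (φ : Fin n → W) : Prop where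
  inj : ∀ x ∈ X, ∀ y ∈ X, φ x = φ y → x = y
  mem : ∀ x ∈ X, φ x ∈ V ∨ φ x ∈ U
  usedU : ∀ u ∈ U, ∃ x ∈ X, φ x = u
  closed : ∀ x ∈ X, φ x ∈ U → ∀ y, T.Adj x y → y ∈ X
  blue : ∀ x ∈ X, ∀ y ∈ X, T.Adj x y → ¬ C.Adj (φ x) (φ y)
  hub : ∀ x ∈ X, x ∈ B₀ ∨ D ≤ deg T x → φ x ∈ G
  few : ∀ v ∈ V, (redB C V B₀ X φ v).card ≤ 1

/-- no unused position of `V` is red to a vertex of `B₀` -/
def NoB {n : ℕ} {W : Type} (C : SimpleGraph W) (V : Finset W) (B₀ : Finset (Fin n)) (X : Finset (Fin n))
    (φ : Fin n → W) : Prop :=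
  ∀ v ∈ V, (∀ x ∈ X, φ x ≠ v) → redB C V B₀ X φ v = ∅

/-- no unused position of `V` is critical -/
def CalmF {n : ℕ} {W : Type} (T : SimpleGraph (Fin n)) (C : SimpleGraph W) (V : Finset W)
    (B₀ : Finset (Fin n)) (D : ℕ) (X : Finset (Fin n)) (φ : Fin n → W) : Prop :=
  ∀ v ∈ V, (∀ x ∈ X, φ x ≠ v) → 8 * wtM T C V B₀ D X φ v < n

/-- the vertices of `Z` lie on critical positions of `V` -/
def CritF {n : ℕ} {W : Type} (T : SimpleGraph (Fin n)) (C : SimpleGraph W) (V : Finset W)
    (B₀ : Finset (Fin n)) (D : ℕ) (X : Finset (Fin n)) (φ : Fin n → W) (Z : Finset (Fin n)) : Prop :=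
  ∀ z ∈ Z, z ∈ X ∧ φ z ∈ V ∧ n ≤ 8 * wtM T C V B₀ D X φ (φ z)

end H67.AF
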