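import Pool.Agent.H67.SG.Def

/-! # AF.ForEmb : a graph of minimum degree at least `|A|` contains every forest on `A` (about 100 lines)

Induction over `|A|` (for all types, or over finsets of vertices of `A`: for a finset `A' ⊆ A` there is an injective map on `A'` with values in `S` respecting the edges of `F` inside `A'`). A nonempty forest has a vertex `a` with at most one neighbour (the forest induced on `A'` is acyclic; it has at most
`|A'| - 1` edges, so the sum of the degrees is less than `2 |A'|`; or take the end of a longest path). Embed `A' \ {a}`; if `a` has the neighbour `b` in `A'`, `f b` has at least `|A|` neighbours in `S`, less than `|A|` elements of `S` are used, so `f a` can be chosen; if `a` has no neighbour any unused element of `S` will do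
(`|S| > |A|` since `dg C x S ≥ |A|` for some `x ∈ S`, `x` itself is not counted). -/

namespace H67.AF

open SimpleGraph Pool.Agent.H62.Decomp H67.SG

private lemma forEmb_leaf {A : Type} [Finite A] (F : SimpleGraph A) (hF : F.IsAcyclic) (a₀ : A) :
    ∃ a, ∀ b b', F.Adj a b → F.Adj a b' → b = b' := by
  classical
  have := Fintype.ofFinite A
  set c := F.connectedComponentMk a₀ with hc
  have ht := hF.isTree_connectedComponent c
  by_cases hn : Nontrivial c.supp
  · obtain ⟨v, hv⟩ := ht.exists_vert_degree_one_of_nontrivial
    refine ⟨v.1, fun b b' hb hb' => ?_⟩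
    have hm : ∀ y, F.Adj v.1 y → y ∈ c.supp := by
      intro y hy
      have h1 : F.connectedComponentMk v.1 = c := v.2
      rw [ConnectedComponent.mem_supp_iff, ← h1]
      exact (ConnectedComponent.sound hy.reachable).symm
    rw [SimpleGraph.degree_eq_one_iff_existsUnique_adj] at hv
    obtain ⟨w, -, hw⟩ := hv
    have h1 := hw ⟨b, hm b hb⟩ hb
    have h2 := hw ⟨b', hm b' hb'⟩ hb'
    have h3 := h1.trans h2.symm
    exact congrArg Subtype.val h3
  · refine ⟨a₀, fun b b' hb _ => ?_⟩
    exfalso
    apply hn
    have h1 : b ∈ c.supp := by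
      rw [ConnectedComponent.mem_supp_iff, hc]
      exact (ConnectedComponent.sound hb.reachable).symm
    have h0 : a₀ ∈ c.supp := by
      rw [ConnectedComponent.mem_supp_iff]
    exact ⟨⟨a₀, h0⟩, ⟨b, h1⟩, fun h => hb.ne (congrArg Subtype.val h)⟩

theorem forest_embed {A : Type} [Fintype A] (F : SimpleGraph A) (hF : F.IsAcyclic) {W : Type} (C : SimpleGraph W)
    (S : Finset W) (hS : S.Nonempty) (hd : ∀ x ∈ S, Fintype.card A ≤ dg C x S) :
    ∃ f : A → W, Function.Injective f ∧ (∀ a, f a ∈ S) ∧ ∀ a b, F.Adj a b → C.Adj (f a) (f b) := by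
  classical
  obtain ⟨x₀, hx₀⟩ := hS
  have key : ∀ (n : ℕ) (A' : Finset A), A'.card = n → ∃ f : A → W,
      (∀ a ∈ A', ∀ b ∈ A', f a = f b → a = b) ∧ (∀ a ∈ A', f a ∈ S) ∧
      ∀ a ∈ A', ∀ b ∈ A', F.Adj a b → C.Adj (f a) (f b) := by
    intro n
    induction n with
    | zero =>
      intro A' hA'
      rw [Finset.card_eq_zero] at hA'
      subst hA'
      exact ⟨fun _ => x₀, by simp, by simp, by simp⟩
    | succ n ih =>
      intro A' hA'
      have hne : A'.Nonempty := by rw [← Finset.card_pos, hA']; omega
      obtain ⟨a₀, ha₀⟩ := hne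
      obtain ⟨⟨a, ha⟩, hleaf⟩ := forEmb_leaf (F.induce (A' : Set A)) (hF.induce _) ⟨a₀, ha₀⟩
      have ha' : a ∈ A' := ha
      obtain ⟨f, hf1, hf2, hf3⟩ := ih (A'.erase a) (by rw [Finset.card_erase_of_mem ha', hA']; rfl)
      -- the position to which the new vertex has to be adjacent
      obtain ⟨x, hxS, hx⟩ : ∃ x ∈ S, ∀ b ∈ A'.erase a, F.Adj a b → f b = x := by
        by_cases hb : ∃ b ∈ A'.erase a, F.Adj a b
        · obtain ⟨b, hb1, hb2⟩ := hb
          refine ⟨f b, hf2 b hb1, fun b' hb1' hb2' => ?_⟩
          have hbA : b ∈ A' := Finset.mem_of_mem_erase hb1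
          have hbA' : b' ∈ A' := Finset.mem_of_mem_erase hb1'
          have h1 := hleaf ⟨b', hbA'⟩ ⟨b, hbA⟩ hb2' hb2
          have h2 : b' = b := congrArg Subtype.val h1
          rw [h2]
        · push Not at hb
          exact ⟨x₀, hx₀, fun b hb1 hb2 => absurd hb2 (hb b hb1)⟩
      have hlt : ((A'.erase a).image f).card < (S.filter (fun y => C.Adj x y)).card := by
        have h1 := hd x hxS
        unfold dg at h1
        have h2 : ((A'.erase a).image f).card ≤ (A'.erase a).card := Finset.card_image_le
        have h3 : (A'.erase a).card < A'.card := Finset.card_erase_lt_of_mem ha'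
        have h4 : A'.card ≤ Fintype.card A := Finset.card_le_univ _
        have h5 : (S.filter (fun y => C.Adj x y)).card = (@Finset.filter W (fun y => C.Adj x y)
          (fun a => Classical.propDecidable _) S).card := by congr!
        omega
      obtain ⟨w, hw1, hw2⟩ := Finset.exists_mem_notMem_of_card_lt_card hlt
      rw [Finset.mem_filter] at hw1
      have hwf : ∀ b ∈ A'.erase a, f b ≠ w := fun b hb h =>
        hw2 (Finset.mem_image.2 ⟨b, hb, h⟩)
      have hup : ∀ b, b ≠ a → Function.update f a w b = f b := fun b hb =>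
        Function.update_of_ne hb _ _
      refine ⟨Function.update f a w, ?_, ?_, ?_⟩
      · intro b hb b' hb' h
        by_cases h1 : b = a
        · subst h1
          by_cases h2 : b' = b
          · exact h2.symm
          · rw [Function.update_self, hup _ h2] at h
            exact absurd h.symm (hwf b' (Finset.mem_erase.2 ⟨h2, hb'⟩))
        · by_cases h2 : b' = a
          · subst h2
            rw [Function.update_self, hup _ h1] at h
            exact absurd h (hwf b (Finset.mem_erase.2 ⟨h1, hb⟩))
          · rw [hup _ h1, hup _ h2] at h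
            exact hf1 b (Finset.mem_erase.2 ⟨h1, hb⟩) b' (Finset.mem_erase.2 ⟨h2, hb'⟩) h
      · intro b hb
        by_cases h1 : b = a
        · subst h1
          rw [Function.update_self]
          exact hw1.1
        · rw [hup _ h1]
          exact hf2 b (Finset.mem_erase.2 ⟨h1, hb⟩)
      · intro b hb b' hb' h
        by_cases h1 : b = a
        · subst h1
          have h2 : b' ≠ b := h.ne'
          rw [Function.update_self, hup _ h2, hx b' (Finset.mem_erase.2 ⟨h2, hb'⟩) h]
          exact hw1.2.symm
        · by_cases h2 : b' = a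
          · subst h2
            rw [Function.update_self, hup _ h1, hx b (Finset.mem_erase.2 ⟨h1, hb⟩) h.symm]
            exact hw1.2
          · rw [hup _ h1, hup _ h2]
            exact hf3 b (Finset.mem_erase.2 ⟨h1, hb⟩) b' (Finset.mem_erase.2 ⟨h2, hb'⟩) h
  obtain ⟨f, h1, h2, h3⟩ := key _ Finset.univ rfl
  exact ⟨f, fun a b h => h1 a (Finset.mem_univ _) b (Finset.mem_univ _) h,
    fun a => h2 a (Finset.mem_univ _), fun a b h => h3 a (Finset.mem_univ _) b (Finset.mem_univ _) h⟩

end H67.AF
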