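import Pool.Agent.H67.SG.Def
import Pool.Agent.H35.GEA.Girth

/-! # AF.HighG : finite graphs of large minimum degree and large girth

For every `d`, `g` there is a finite nonempty graph with all degrees at least `d` in which every set of at most `g` vertices induces a forest. Proof: the Cayley graph of a finite group of large girth
(`H35.GEA.Girth.exists_finite_group`). On at most `g` vertices there is a label-compatible map `w` into the free group; the length of `w x` is a function such that every vertex has at most one neighbour
whose value is not larger; so there is no cycle. -/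

namespace H67.AF

open SimpleGraph Pool.Agent.H62.Decomp H67.SG

theorem acyclic_of_rank {V : Type*} (G : SimpleGraph V) (f : V → ℕ)
    (h : ∀ x y z, G.Adj x y → G.Adj x z → f y ≤ f x → f z ≤ f x → y = z) : G.IsAcyclic := by
  classical
  intro v c hc
  obtain ⟨x, hx, hmax⟩ := Finset.exists_max_image c.support.toFinset f
    ⟨v, by simp⟩
  have hx' : x ∈ c.support := by simpa using hx
  have h2 := hc.ncard_neighborSet_toSubgraph_eq_two hx'
  obtain ⟨y, z, hyz, hs⟩ := Set.ncard_eq_two.1 h2
  have hy : c.toSubgraph.Adj x y := by
    have : y ∈ c.toSubgraph.neighborSet x := by rw [hs]; simp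
    exact this
  have hz : c.toSubgraph.Adj x z := by
    have : z ∈ c.toSubgraph.neighborSet x := by rw [hs]; simp
    exact this
  have hy' : y ∈ c.support := by
    have := c.toSubgraph.edge_vert hy.symm
    simpa using this
  have hz' : z ∈ c.support := by
    have := c.toSubgraph.edge_vert hz.symm
    simpa using this
  exact hyz (h x y z hy.adj_sub hz.adj_sub (hmax y (by simpa using hy')) (hmax z (by simpa using hz')))

theorem head_of_mul {m : ℕ} (p : Fin m × Bool) (u : FreeGroup (Fin m))
    (h : (FreeGroup.mk [p] * u).toWord.length ≤ u.toWord.length) :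
    u.toWord.head? = some (p.1, !p.2) := by
  classical
  have h1 : (FreeGroup.mk [p] * u).toWord = FreeGroup.reduce (p :: u.toWord) := by
    conv_lhs => rw [← FreeGroup.mk_toWord (x := u)]
    rw [FreeGroup.mul_mk, FreeGroup.toWord_mk]
    rfl
  rw [h1, FreeGroup.reduce.cons, FreeGroup.reduce_toWord] at h
  cases hL : u.toWord with
  | nil => rw [hL] at h; simp at h
  | cons q L =>
    rw [hL] at h
    by_cases hc : p.1 = q.1 ∧ p.2 = !q.2
    · obtain ⟨h3, h4⟩ := hc
      simp only [List.head?_cons]
      rw [h3, h4]
      simp
    · simp only [hc, if_false] at h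
      simp at h

theorem high_girth (d g : ℕ) : ∃ (N : ℕ) (H : SimpleGraph (Fin N)), 1 ≤ N ∧ (∀ x, d ≤ deg H x) ∧
    ∀ S : Finset (Fin N), S.card ≤ g → (H.induce (S : Set (Fin N))).IsAcyclic := by
  classical
  obtain ⟨X, iG, iF, t, ht⟩ := Pool.Agent.H35.GEA.exists_finite_group d (g * d + 2)
  have h1 : ∀ (x : X) (a b : Fin d), t a * x = t b * x → a = b := by
    intro x a b hab
    obtain ⟨w, hw⟩ := ht {(x, a), (x, b)} (le_trans Finset.card_le_two (by omega))
    have ha := hw (x, a) (by simp)
    have hb := hw (x, b) (by simp)
    simp only at ha hb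
    rw [hab, hb] at ha
    exact (FreeGroup.of_injective (mul_right_cancel ha)).symm
  have h2 : ∀ (x : X) (a : Fin d), t a * x ≠ x := by
    intro x a hab
    obtain ⟨w, hw⟩ := ht {(x, a)} (by simp)
    have ha := hw (x, a) (by simp)
    simp only at ha
    rw [hab] at ha
    have : FreeGroup.of a = 1 := (mul_eq_right.1 ha.symm)
    exact FreeGroup.of_ne_one a this
  let R : SimpleGraph X :=
    { Adj := fun x y => ∃ a, y = t a * x ∨ x = t a * y
      symm := ⟨by
        rintro x y ⟨a, h | h⟩
        · exact ⟨a, Or.inr h⟩
        · exact ⟨a, Or.inl h⟩⟩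
      loopless := ⟨by
        rintro x ⟨a, h | h⟩
        · exact h2 x a h.symm
        · exact h2 x a h.symm⟩ }
  let e : X ≃ Fin (Fintype.card X) := Fintype.equivFin X
  refine ⟨Fintype.card X, R.map e.toEmbedding, Fintype.card_pos_iff.2 ⟨1⟩, ?_, ?_⟩
  · intro x
    unfold deg dg
    have : Function.Injective (fun a : Fin d => e (t a * e.symm x)) := by
      intro a b hab
      exact h1 _ a b (e.injective hab)
    calc d = (Finset.univ.image (fun a : Fin d => e (t a * e.symm x))).card := by
          rw [Finset.card_image_of_injective _ this]; simp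
      _ ≤ _ := by
          apply Finset.card_le_card
          intro y hy
          simp only [Finset.mem_image, Finset.mem_univ, true_and] at hy
          obtain ⟨a, rfl⟩ := hy
          simp only [Finset.mem_filter, Finset.mem_univ, true_and]
          rw [SimpleGraph.map_adj]
          exact ⟨e.symm x, t a * e.symm x, ⟨a, Or.inl rfl⟩, by simp, by simp⟩
  · intro S hS
    obtain ⟨w, hw⟩ := ht ((S.image e.symm) ×ˢ Finset.univ) (by
      rw [Finset.card_product, Finset.card_univ, Fintype.card_fin]
      have := Finset.card_image_le (s := S) (f := e.symm)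
      nlinarith)
    have hw' : ∀ x ∈ S, ∀ a, w (t a * e.symm x) = FreeGroup.of a * w (e.symm x) := by
      intro x hx a
      exact hw (e.symm x, a) (by simpa using hx)
    -- the letter and the neighbour
    have key : ∀ x y : Fin (Fintype.card X), x ∈ S → y ∈ S → (R.map e.toEmbedding).Adj x y →
        (w (e.symm y)).toWord.length ≤ (w (e.symm x)).toWord.length →
        ∃ a : Fin d, ((w (e.symm x)).toWord.head? = some (a, false) ∧ e.symm y = t a * e.symm x) ∨
          ((w (e.symm x)).toWord.head? = some (a, true) ∧ e.symm y = (t a)⁻¹ * e.symm x) := by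
      intro x y hx hy hxy hle
      rw [SimpleGraph.map_adj] at hxy
      obtain ⟨x', y', ⟨a, hxy⟩, rfl, rfl⟩ := hxy
      simp only [Equiv.coe_toEmbedding, Equiv.symm_apply_apply] at hle hx hy hw' ⊢
      refine ⟨a, ?_⟩
      rcases hxy with h | h
      · left
        refine ⟨?_, h⟩
        have h3 := hw' _ hx a
        rw [Equiv.symm_apply_apply, ← h] at h3
        have h4 := head_of_mul (a, true) (w x') (by
          have : (FreeGroup.mk [(a, true)] : FreeGroup (Fin d)) = FreeGroup.of a := rfl
          rw [this, ← h3]; exact hle)
        simpa using h4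
      · right
        refine ⟨?_, by rw [h]; simp⟩
        have h3 := hw' _ hy a
        rw [Equiv.symm_apply_apply, ← h] at h3
        have h5 : w y' = (FreeGroup.of a)⁻¹ * w x' := by rw [h3]; simp
        have h4 := head_of_mul (a, false) (w x') (by
          have : (FreeGroup.mk [(a, false)] : FreeGroup (Fin d)) = (FreeGroup.of a)⁻¹ := rfl
          rw [this, ← h5]; exact hle)
        simpa using h4
    apply acyclic_of_rank _ (fun x => (w (e.symm x.1)).toWord.length)
    rintro ⟨x, hx⟩ ⟨y, hy⟩ ⟨z, hz⟩ hxy hxz h3 h4
    obtain ⟨a, ha⟩ := key x y (by simpa using hx) (by simpa using hy) hxy h3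
    obtain ⟨b, hb⟩ := key x z (by simpa using hx) (by simpa using hz) hxz h4
    apply Subtype.ext
    apply e.symm.injective
    rcases ha with ⟨ha1, ha2⟩ | ⟨ha1, ha2⟩ <;> rcases hb with ⟨hb1, hb2⟩ | ⟨hb1, hb2⟩
    · rw [ha1] at hb1
      have : a = b := by simpa using hb1
      subst this
      simp only; rw [ha2, hb2]
    · rw [ha1] at hb1; simp at hb1
    · rw [ha1] at hb1; simp at hb1
    · rw [ha1] at hb1
      have : a = b := by simpa using hb1
      subst this
      simp only; rw [ha2, hb2]

end H67.AF
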