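import Pool.Agent.H67.AF.Def

/-! # AF.IniF : start of the placement (about 120 lines; compare `H67.AS.IniA`)

`Lf ⊆` leaves adjacent to `h` with `|Lf| = |U|`, a bijection `g` of `Lf` onto `U`; `X = insert h Lf`, `φ h = w`, `φ = g` on `Lf`. `closed`: the only neighbour of a leaf adjacent to `h` is `h`. `hub`: a leaf has degree `1`, so it is not a hub (`D ≥ 2`) and not in `B₀` (`hB`, it is different from `h`).
`few`: `redB v ⊆ {h}` (`g` has values in `U`, disjoint from `V`). -/

namespace H67.AF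

open SimpleGraph Pool.Agent.H62.Decomp H67.SG H67.AS

open Classical in
theorem init_f {n : ℕ} {W : Type} {T : SimpleGraph (Fin n)} {C : SimpleGraph W} {V U G : Finset W}
    {B₀ : Finset (Fin n)} {D : ℕ} (hUV : Disjoint V U) (hGV : G ⊆ V) (hD : 2 ≤ D) (h : Fin n) (hhB : h ∈ B₀)
    (hB : ∀ x ∈ B₀, x = h ∨ 2 ≤ deg T x)
    (hh : U.card ≤ (Finset.univ.filter (fun y => T.Adj h y ∧ deg T y = 1)).card) (w : W) (hw : w ∈ G)
    (hwU : ∀ u ∈ U, ¬ C.Adj w u) :
    ∃ (X : Finset (Fin n)) (φ : Fin n → W), PlF T C V U G B₀ D X φ ∧ (∀ x ∈ X, φ x ∈ V → φ x ∈ G ∧ x ∈ B₀) ∧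
      (∀ x ∈ X, x ∉ B₀ → deg T x < D) ∧ X.card ≤ U.card + 1 := by
  obtain ⟨Lf, hLsub, hLc⟩ := Finset.exists_subset_card_eq hh
  have hLf : ∀ x ∈ Lf, T.Adj h x ∧ deg T x = 1 := by
    intro x hx
    have := hLsub hx
    rw [Finset.mem_filter] at this
    exact this.2
  have hhL : h ∉ Lf := fun hx => T.loopless.irrefl h (hLf h hx).1
  have hwV : w ∈ V := hGV hw
  have hVU : ∀ p, p ∈ V → p ∉ U := fun p hp => Finset.disjoint_left.mp hUV hp
  have hnb : ∀ x ∈ Lf, ∀ y, T.Adj x y → y = h := by
    intro x hx y hxy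
    have h1 := (hLf x hx).2
    unfold deg dg at h1
    obtain ⟨z, hz⟩ := Finset.card_eq_one.mp h1
    have m1 : y ∈ Finset.univ.filter (fun y => T.Adj x y) :=
      Finset.mem_filter.mpr ⟨Finset.mem_univ y, hxy⟩
    have m2 : h ∈ Finset.univ.filter (fun y => T.Adj x y) :=
      Finset.mem_filter.mpr ⟨Finset.mem_univ h, (hLf x hx).1.symm⟩
    rw [hz, Finset.mem_singleton] at m1 m2
    rw [m1, m2]
  obtain ⟨e⟩ : Nonempty (Lf ≃ U) := by
    rw [← Fintype.card_eq, Fintype.card_coe, Fintype.card_coe]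
    exact hLc
  have hex : ∃ φ : Fin n → W, φ h = w ∧ ∀ x (hx : x ∈ Lf), φ x = (e ⟨x, hx⟩ : W) := by
    refine ⟨fun x => if hx : x ∈ Lf then (e ⟨x, hx⟩ : W) else w, ?_, ?_⟩
    · exact dif_neg hhL
    · intro x hx
      exact dif_pos hx
  obtain ⟨φ, hφh, hφL⟩ := hex
  have hφU : ∀ x ∈ Lf, φ x ∈ U := by
    intro x hx
    rw [hφL x hx]
    exact (e ⟨x, hx⟩).2
  have hcase : ∀ x ∈ insert h Lf, φ x ∈ V → x = h := by
    intro x hx hxV
    rcases Finset.mem_insert.1 hx with h1 | h1
    · exact h1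
    · exact absurd (hφU x h1) (hVU _ hxV)
  have hcaseU : ∀ x ∈ insert h Lf, φ x ∈ U → x ∈ Lf := by
    intro x hx hxU
    rcases Finset.mem_insert.1 hx with h1 | h1
    · rw [h1, hφh] at hxU
      exact absurd hxU (hVU _ hwV)
    · exact h1
  refine ⟨insert h Lf, φ, ?_, ?_, ?_, ?_⟩
  · constructor
    · intro x hx y hy hxy
      rcases Finset.mem_insert.1 hx with h1 | h1 <;> rcases Finset.mem_insert.1 hy with h2 | h2
      · rw [h1, h2]
      · have h3 := hφU y h2
        rw [← hxy, h1, hφh] at h3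
        exact absurd h3 (hVU _ hwV)
      · have h3 := hφU x h1
        rw [hxy, h2, hφh] at h3
        exact absurd h3 (hVU _ hwV)
      · rw [hφL x h1, hφL y h2] at hxy
        have h3 := e.injective (Subtype.ext hxy)
        exact congrArg Subtype.val h3
    · intro x hx
      rcases Finset.mem_insert.1 hx with h1 | h1
      · left
        rw [h1, hφh]
        exact hwV
      · right
        exact hφU x h1
    · intro u hu
      refine ⟨(e.symm ⟨u, hu⟩ : Fin n), Finset.mem_insert_of_mem (e.symm ⟨u, hu⟩).2, ?_⟩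
      rw [hφL _ (e.symm ⟨u, hu⟩).2]
      have h3 : e ⟨(e.symm ⟨u, hu⟩ : Fin n), (e.symm ⟨u, hu⟩).2⟩ = ⟨u, hu⟩ := e.apply_symm_apply ⟨u, hu⟩
      rw [h3]
    · intro x hx hxU y hxy
      rw [hnb x (hcaseU x hx hxU) y hxy]
      exact Finset.mem_insert_self _ _
    · intro x hx y hy hxy
      rcases Finset.mem_insert.1 hx with h1 | h1
      · rcases Finset.mem_insert.1 hy with h2 | h2
        · rw [h1, h2] at hxy
          exact absurd hxy (T.loopless.irrefl h)
        · rw [h1, hφh]
          exact hwU _ (hφU y h2)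
      · have h2 := hnb x h1 y hxy
        rw [h2, hφh]
        intro hc
        exact hwU _ (hφU x h1) hc.symm
    · intro x hx hxd
      rcases Finset.mem_insert.1 hx with h1 | h1
      · rw [h1, hφh]
        exact hw
      · exfalso
        have h2 := (hLf x h1).2
        rcases hxd with h3 | h3
        · rcases hB x h3 with h4 | h4
          · rw [h4] at h1
            exact hhL h1
          · omega
        · omega
    · intro v _
      have hs : redB C V B₀ (insert h Lf) φ v ⊆ {h} := by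
        intro x hx
        unfold redB at hx
        rw [Finset.mem_filter] at hx
        rw [Finset.mem_singleton]
        exact hcase x hx.1 hx.2.1
      calc (redB C V B₀ (insert h Lf) φ v).card ≤ ({h} : Finset (Fin n)).card := Finset.card_le_card hs
        _ = 1 := Finset.card_singleton h
  · intro x hx hxV
    have h1 := hcase x hx hxV
    rw [h1, hφh]
    exact ⟨hw, hhB⟩
  · intro x hx hxB
    rcases Finset.mem_insert.1 hx with h1 | h1
    · rw [h1] at hxB
      exact absurd hhB hxB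
    · have h2 := (hLf x h1).2
      omega
  · rw [Finset.card_insert_of_notMem hhL, hLc]

end H67.AF
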