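import Pool.Agent.H67.AF.Def

/-! # AF.InsF : placing one more vertex (about 170 lines; compare `H67.AS.Ins`, most proofs can be copied)

`plf_insert`: every field for `insert y X` and `Function.update φ y p`; `p ∉ U` because `V`, `U` are disjoint; `redB` of the new placement is contained in
`insert y (redB … X φ v)`, and in `redB … X φ v` if `y ∉ B₀` or `p` is not a red neighbour of `v`. -/

namespace H67.AF

open SimpleGraph Pool.Agent.H62.Decomp H67.SG H67.AS

private theorem insf_upd {n : ℕ} {W : Type} {X : Finset (Fin n)} {φ : Fin n → W} {y : Fin n} {p : W}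
    (hy : y ∉ X) {x : Fin n} (hx : x ∈ X) : Function.update φ y p x = φ x :=
  Function.update_of_ne (ne_of_mem_of_not_mem hx hy) _ _

private theorem redB_insert_subset {n : ℕ} {W : Type} (C : SimpleGraph W) (V : Finset W)
    (B₀ X : Finset (Fin n)) (φ : Fin n → W) (y : Fin n) (p : W) (hy : y ∉ X) (v : W) :
    redB C V B₀ (insert y X) (Function.update φ y p) v ⊆ insert y (redB C V B₀ X φ v) := by
  classical
  intro x hx
  unfold redB at hx ⊢
  rw [Finset.mem_filter, Finset.mem_insert] at hx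
  rw [Finset.mem_insert, Finset.mem_filter]
  obtain ⟨hx1, hx2⟩ := hx
  rcases hx1 with h | h
  · exact Or.inl h
  · rw [insf_upd hy h] at hx2
    exact Or.inr ⟨h, hx2⟩

private theorem redB_insert_subset' {n : ℕ} {W : Type} (C : SimpleGraph W) (V : Finset W)
    (B₀ X : Finset (Fin n)) (φ : Fin n → W) (y : Fin n) (p : W) (hy : y ∉ X) (v : W)
    (h0 : ¬ (y ∈ B₀ ∧ C.Adj p v)) :
    redB C V B₀ (insert y X) (Function.update φ y p) v ⊆ redB C V B₀ X φ v := by
  classical
  intro x hx
  unfold redB at hx ⊢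
  rw [Finset.mem_filter, Finset.mem_insert] at hx
  rw [Finset.mem_filter]
  obtain ⟨hx1, hx2⟩ := hx
  rcases hx1 with h | h
  · subst h
    rw [Function.update_self] at hx2
    exact absurd ⟨hx2.2.1, hx2.2.2⟩ h0
  · rw [insf_upd hy h] at hx2
    exact ⟨h, hx2⟩

theorem plf_insert {n : ℕ} {W : Type} {T : SimpleGraph (Fin n)} {C : SimpleGraph W} {V U G : Finset W}
    {B₀ : Finset (Fin n)} {D : ℕ} {X : Finset (Fin n)} {φ : Fin n → W} (hP : PlF T C V U G B₀ D X φ)
    (hUV : Disjoint V U) (y : Fin n) (p : W) (hy : y ∉ X) (hp : p ∈ V) (hfree : ∀ x ∈ X, φ x ≠ p)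
    (hblue : ∀ x ∈ X, T.Adj x y → ¬ C.Adj (φ x) p) (hhub : y ∈ B₀ ∨ D ≤ deg T y → p ∈ G)
    (hbig : y ∈ B₀ → ∀ v ∈ V, C.Adj p v → redB C V B₀ X φ v = ∅) :
    PlF T C V U G B₀ D (insert y X) (Function.update φ y p) := by
  classical
  have hpU : p ∉ U := fun h => (Finset.disjoint_left.1 hUV) hp h
  refine ⟨?_, ?_, ?_, ?_, ?_, ?_, ?_⟩
  · intro a ha b hb hab
    rw [Finset.mem_insert] at ha hb
    rcases ha with rfl | ha
    · rcases hb with rfl | hb
      · rfl
      · rw [Function.update_self, insf_upd hy hb] at hab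
        exact absurd hab.symm (hfree b hb)
    · rcases hb with rfl | hb
      · rw [Function.update_self, insf_upd hy ha] at hab
        exact absurd hab (hfree a ha)
      · rw [insf_upd hy ha, insf_upd hy hb] at hab
        exact hP.inj a ha b hb hab
  · intro a ha
    rw [Finset.mem_insert] at ha
    rcases ha with rfl | ha
    · rw [Function.update_self]
      exact Or.inl hp
    · rw [insf_upd hy ha]
      exact hP.mem a ha
  · intro u hu
    obtain ⟨x, hx, hxu⟩ := hP.usedU u hu
    exact ⟨x, Finset.mem_insert_of_mem hx, by rw [insf_upd hy hx]; exact hxu⟩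
  · intro a ha haU b hab
    rw [Finset.mem_insert] at ha
    rcases ha with rfl | ha
    · rw [Function.update_self] at haU
      exact absurd haU hpU
    · rw [insf_upd hy ha] at haU
      exact Finset.mem_insert_of_mem (hP.closed a ha haU b hab)
  · intro a ha b hb hab
    rw [Finset.mem_insert] at ha hb
    rcases ha with rfl | ha
    · rcases hb with rfl | hb
      · exact absurd hab (T.irrefl)
      · rw [Function.update_self, insf_upd hy hb]
        intro h
        exact hblue b hb hab.symm h.symm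
    · rcases hb with rfl | hb
      · rw [Function.update_self, insf_upd hy ha]
        exact hblue a ha hab
      · rw [insf_upd hy ha, insf_upd hy hb]
        exact hP.blue a ha b hb hab
  · intro a ha hD
    rw [Finset.mem_insert] at ha
    rcases ha with rfl | ha
    · rw [Function.update_self]
      exact hhub hD
    · rw [insf_upd hy ha]
      exact hP.hub a ha hD
  · intro v hv
    by_cases h0 : y ∈ B₀ ∧ C.Adj p v
    · have h1 := hbig h0.1 v hv h0.2
      have h2 := Finset.card_le_card (redB_insert_subset C V B₀ X φ y p hy v)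
      rw [h1] at h2
      simpa using h2
    · exact (Finset.card_le_card (redB_insert_subset' C V B₀ X φ y p hy v h0)).trans (hP.few v hv)

theorem redB_insert {n : ℕ} {W : Type} (C : SimpleGraph W) (V : Finset W) (B₀ X : Finset (Fin n))
    (φ : Fin n → W) (y : Fin n) (p : W) (hy : y ∉ X) (hyB : y ∉ B₀) (v : W) :
    redB C V B₀ (insert y X) (Function.update φ y p) v ⊆ redB C V B₀ X φ v :=
  redB_insert_subset' C V B₀ X φ y p hy v (fun h => hyB h.1)

theorem noB_insert {n : ℕ} {W : Type} {C : SimpleGraph W} {V : Finset W} {B₀ X : Finset (Fin n)}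
    {φ : Fin n → W} (h : NoB C V B₀ X φ) (y : Fin n) (p : W) (hy : y ∉ X) (hyB : y ∉ B₀) :
    NoB C V B₀ (insert y X) (Function.update φ y p) := by
  intro v hv hfree
  have h1 : redB C V B₀ X φ v = ∅ := by
    apply h v hv
    intro x hx
    have h2 := hfree x (Finset.mem_insert_of_mem hx)
    rwa [insf_upd hy hx] at h2
  have h3 := redB_insert C V B₀ X φ y p hy hyB v
  rw [h1] at h3
  exact Finset.subset_empty.1 h3

private theorem redM_insert_subset {n : ℕ} {W : Type} (T : SimpleGraph (Fin n)) (C : SimpleGraph W)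
    (V : Finset W) (B₀ : Finset (Fin n)) (D : ℕ) (X : Finset (Fin n)) (φ : Fin n → W) (y : Fin n) (p : W)
    (hy : y ∉ X) (v : W) :
    redM T C V B₀ D (insert y X) (Function.update φ y p) v ⊆ insert y (redM T C V B₀ D X φ v) := by
  classical
  intro x hx
  unfold redM at hx ⊢
  rw [Finset.mem_filter, Finset.mem_insert] at hx
  rw [Finset.mem_insert, Finset.mem_filter]
  obtain ⟨hx1, hx2⟩ := hx
  rcases hx1 with h | h
  · exact Or.inl h
  · rw [insf_upd hy h] at hx2
    exact Or.inr ⟨h, hx2⟩

theorem wtM_insert {n : ℕ} {W : Type} (T : SimpleGraph (Fin n)) (C : SimpleGraph W) (V : Finset W)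
    (B₀ : Finset (Fin n)) (D : ℕ) (X : Finset (Fin n)) (φ : Fin n → W) (y : Fin n) (p : W) (hy : y ∉ X) (v : W) :
    wtM T C V B₀ D (insert y X) (Function.update φ y p) v ≤ wtM T C V B₀ D X φ v + deg T y := by
  classical
  have hy' : y ∉ redM T C V B₀ D X φ v := by
    unfold redM
    rw [Finset.mem_filter]
    exact fun h => hy h.1
  have h1 := Finset.sum_le_sum_of_subset (f := fun x => deg T x) (redM_insert_subset T C V B₀ D X φ y p hy v)
  rw [Finset.sum_insert hy'] at h1
  unfold wtM
  omega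

theorem wtM_insert_low {n : ℕ} {W : Type} (T : SimpleGraph (Fin n)) (C : SimpleGraph W) (V : Finset W)
    (B₀ : Finset (Fin n)) (D : ℕ) (X : Finset (Fin n)) (φ : Fin n → W) (y : Fin n) (p : W) (hy : y ∉ X)
    (hd : y ∈ B₀ ∨ deg T y < D) (v : W) :
    wtM T C V B₀ D (insert y X) (Function.update φ y p) v ≤ wtM T C V B₀ D X φ v := by
  classical
  unfold wtM
  apply Finset.sum_le_sum_of_subset
  intro x hx
  unfold redM at hx ⊢
  rw [Finset.mem_filter, Finset.mem_insert] at hx
  rw [Finset.mem_filter]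
  obtain ⟨hx1, hx2⟩ := hx
  rcases hx1 with h | h
  · subst h
    rcases hd with hd | hd
    · exact absurd hd hx2.2.1
    · exact absurd hx2.2.2.1 (not_le.2 hd)
  · rw [insf_upd hy h] at hx2
    exact ⟨h, hx2⟩

theorem wtM_mono {n : ℕ} {W : Type} (T : SimpleGraph (Fin n)) (C : SimpleGraph W) (V : Finset W)
    (B₀ : Finset (Fin n)) (D : ℕ) {X X' : Finset (Fin n)} {φ ψ : Fin n → W} (hX : X ⊆ X')
    (h : ∀ x ∈ X, ψ x = φ x) (v : W) : wtM T C V B₀ D X φ v ≤ wtM T C V B₀ D X' ψ v := by
  classical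
  unfold wtM
  apply Finset.sum_le_sum_of_subset
  intro x hx
  unfold redM at hx ⊢
  rw [Finset.mem_filter] at hx ⊢
  refine ⟨hX hx.1, ?_⟩
  rw [h x hx.1]
  exact hx.2

theorem critF_mono {n : ℕ} {W : Type} {T : SimpleGraph (Fin n)} {C : SimpleGraph W} {V : Finset W}
    {B₀ : Finset (Fin n)} {D : ℕ} {X X' : Finset (Fin n)} {φ ψ : Fin n → W} (hX : X ⊆ X')
    (h : ∀ x ∈ X, ψ x = φ x) {Z : Finset (Fin n)} (hZ : CritF T C V B₀ D X φ Z) :
    CritF T C V B₀ D X' ψ Z := by
  intro z hz
  obtain ⟨h1, h2, h3⟩ := hZ z hz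
  rw [h z h1]
  exact ⟨hX h1, h2, h3.trans (Nat.mul_le_mul_left _ (wtM_mono T C V B₀ D hX h (φ z)))⟩

end H67.AF
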