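import Pool.Agent.H67.AF.HighG
import Pool.Agent.H67.SG.Def
import Pool.Agent.H67.SG.Ram
import Pool.Agent.H57.SD.Def

/-! # AF.NoFor : no forest in B(G): larger values for near-stars (about 180 lines)

Let `s = surplus G`, `d = s + K + n₀ + 10`, `g = card V`, `H` on `Fin N` from `high_girth d g` (then `N ≥ d + 1`),
`n + s - 1 = N` defines `n`. `T` = a tree on `Fin n` with a vertex of degree exactly `n - K - 1` and no larger degree.
Blue degrees in `Hᶜ` are at most `N - 1 - d < n - K - 1`: no blue `T`.
No member of `B(G)` in `H`: a copy has at most `g` vertices, its image set induces an acyclic graph. -/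

namespace H67.AF

open SimpleGraph Pool.Agent.H62.Decomp H67.SG H57.SD

/-- a graph on `Fin n` given by a decreasing parent function is a tree -/
private theorem noFor_tree {n : ℕ} (hn : 0 < n) (p : Fin n → Fin n)
    (hp : ∀ v : Fin n, v.val ≠ 0 → (p v).val < v.val) (T : SimpleGraph (Fin n))
    (hT : ∀ u v, T.Adj u v ↔ (v.val ≠ 0 ∧ p v = u) ∨ (u.val ≠ 0 ∧ p u = v)) : T.IsTree := by
  classical
  have hreach : ∀ k : ℕ, ∀ v : Fin n, v.val = k → T.Reachable ⟨0, hn⟩ v := by
    intro k
    induction k using Nat.strong_induction_on with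
    | _ k ih =>
      intro v hv
      by_cases h0 : v.val = 0
      · have : v = ⟨0, hn⟩ := Fin.ext h0
        rw [this]
      · have h1 := hp v h0
        have h2 := ih (p v).val (by omega) (p v) rfl
        exact h2.trans ((hT (p v) v).mpr (Or.inl ⟨h0, rfl⟩)).reachable
  have hconn : T.Connected := by
    have : Nonempty (Fin n) := ⟨⟨0, hn⟩⟩
    refine ⟨fun u v => ?_⟩
    exact (hreach _ u rfl).symm.trans (hreach _ v rfl)
  rw [isTree_iff_connected_and_card]
  refine ⟨hconn, ?_⟩
  have h1 := hconn.card_vert_le_card_edgeSet_add_one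
  have h2 : Nat.card T.edgeSet ≤ n - 1 := by
    have h3 : T.edgeSet ⊆ ((Finset.univ.erase (⟨0, hn⟩ : Fin n)).image (fun v => s(p v, v)) : Finset (Sym2 (Fin n))) := by
      intro e he
      induction e using Sym2.ind with
      | _ x y =>
        rw [mem_edgeSet, hT] at he
        rw [Finset.coe_image, Set.mem_image]
        rcases he with ⟨h4, h5⟩ | ⟨h4, h5⟩
        · refine ⟨y, ?_, by rw [h5]⟩
          rw [Finset.mem_coe, Finset.mem_erase]
          exact ⟨fun h => h4 (by rw [h]), Finset.mem_univ _⟩
        · refine ⟨x, ?_, by rw [h5]; exact Sym2.eq_swap⟩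
          rw [Finset.mem_coe, Finset.mem_erase]
          exact ⟨fun h => h4 (by rw [h]), Finset.mem_univ _⟩
    rw [Nat.card_coe_set_eq]
    refine (Set.ncard_le_ncard h3 (Finset.finite_toSet _)).trans ?_
    rw [Set.ncard_coe_finset]
    refine Finset.card_image_le.trans ?_
    rw [Finset.card_erase_of_mem (Finset.mem_univ _), Finset.card_univ, Fintype.card_fin]
  rw [Nat.card_eq_fintype_card (α := Fin n), Fintype.card_fin] at h1 ⊢
  omega

private theorem noFor_deg {n : ℕ} (T : SimpleGraph (Fin n)) (x : Fin n) [DecidablePred (fun y => T.Adj x y)] :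
    deg T x = (Finset.univ.filter (fun y => T.Adj x y)).card := by
  unfold deg dg
  apply congrArg Finset.card
  ext y
  simp only [Finset.mem_filter]

/-- the near-star -/
private theorem noFor_star (n K : ℕ) (hn : K + 3 ≤ n) : ∃ T : SimpleGraph (Fin n), T.IsTree ∧
    (∀ x, deg T x + K ≤ n) ∧ ∃ x, n - K - 1 ≤ deg T x := by
  classical
  let p : Fin n → Fin n := fun v => if v.val ≤ n - K - 1 then ⟨0, by omega⟩ else ⟨v.val - 1, by omega⟩
  have hp : ∀ v : Fin n, v.val ≠ 0 → (p v).val < v.val := by
    intro v hv
    show (if v.val ≤ n - K - 1 then (⟨0, by omega⟩ : Fin n) else ⟨v.val - 1, by omega⟩).val < v.val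
    split_ifs
    · show 0 < v.val
      omega
    · show v.val - 1 < v.val
      omega
  have hpv : ∀ v : Fin n, v.val ≤ n - K - 1 → (p v).val = 0 := by
    intro v hv
    show (if v.val ≤ n - K - 1 then (⟨0, by omega⟩ : Fin n) else ⟨v.val - 1, by omega⟩).val = 0
    rw [if_pos hv]
  have hpv' : ∀ v : Fin n, ¬ v.val ≤ n - K - 1 → (p v).val = v.val - 1 := by
    intro v hv
    show (if v.val ≤ n - K - 1 then (⟨0, by omega⟩ : Fin n) else ⟨v.val - 1, by omega⟩).val = v.val - 1
    rw [if_neg hv]
  let T : SimpleGraph (Fin n) :=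
    { Adj := fun u v => (v.val ≠ 0 ∧ p v = u) ∨ (u.val ≠ 0 ∧ p u = v)
      symm := ⟨fun u v h => h.symm⟩
      loopless := ⟨fun u h => by
        rcases h with ⟨h1, h2⟩ | ⟨h1, h2⟩
        · have := hp u h1
          rw [h2] at this
          omega
        · have := hp u h1
          rw [h2] at this
          omega⟩ }
  have hT : ∀ u v, T.Adj u v ↔ (v.val ≠ 0 ∧ p v = u) ∨ (u.val ≠ 0 ∧ p u = v) := fun u v => Iff.rfl
  refine ⟨T, noFor_tree (by omega) p hp T hT, ?_, ⟨0, by omega⟩, ?_⟩
  · intro x
    rw [noFor_deg]
    by_cases hx : x.val = 0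
    · have h1 : (Finset.univ.filter (fun y => T.Adj x y)) ⊆
          (Finset.univ.filter (fun y : Fin n => y.val < n - K)) := by
        intro y hy
        rw [Finset.mem_filter] at hy ⊢
        refine ⟨Finset.mem_univ _, ?_⟩
        rcases (hT x y).mp hy.2 with ⟨h2, h3⟩ | ⟨h2, h3⟩
        · by_contra h4
          have h5 := hpv' y (by omega)
          rw [h3] at h5
          omega
        · exact absurd hx h2
      have h2 := Finset.card_le_card h1
      have h3 : (Finset.univ.filter (fun y : Fin n => y.val < n - K)).card ≤ n - K := by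
        have h4 : (Finset.univ.filter (fun y : Fin n => y.val < n - K)).card ≤ (Finset.range (n - K)).card := by
          apply Finset.card_le_card_of_injOn (fun y : Fin n => y.val)
          · intro y hy
            rw [Finset.coe_filter] at hy
            rw [Finset.mem_coe, Finset.mem_range]
            exact hy.2
          · intro a _ b _ hab
            exact Fin.ext hab
        rwa [Finset.card_range] at h4
      omega
    · have h1 : (Finset.univ.filter (fun y => T.Adj x y)) ⊆
          insert (p x) (Finset.univ.filter (fun y : Fin n => y.val = x.val + 1)) := by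
        intro y hy
        rw [Finset.mem_filter] at hy
        rw [Finset.mem_insert, Finset.mem_filter]
        rcases (hT x y).mp hy.2 with ⟨h2, h3⟩ | ⟨h2, h3⟩
        · right
          refine ⟨Finset.mem_univ _, ?_⟩
          by_cases h4 : y.val ≤ n - K - 1
          · have h5 := hpv y h4
            rw [h3] at h5
            exact absurd h5 hx
          · have h5 := hpv' y h4
            rw [h3] at h5
            omega
        · left
          exact h3.symm
      have h2 := Finset.card_le_card h1
      have h3 : (Finset.univ.filter (fun y : Fin n => y.val = x.val + 1)).card ≤ 1 := by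
        rw [Finset.card_le_one]
        intro a ha b hb
        rw [Finset.mem_filter] at ha hb
        exact Fin.ext (by omega)
      have h4 := Finset.card_insert_le (p x) (Finset.univ.filter (fun y : Fin n => y.val = x.val + 1))
      omega
  · rw [noFor_deg]
    have h1 : (Finset.range (n - K - 1)).card ≤
        (Finset.univ.filter (fun y => T.Adj (⟨0, by omega⟩ : Fin n) y)).card := by
      apply Finset.card_le_card_of_injOn (fun i => if h : i + 1 < n then (⟨i + 1, h⟩ : Fin n) else ⟨0, by omega⟩)
      · intro i hi
        rw [Finset.mem_coe, Finset.mem_range] at hi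
        have h2 : i + 1 < n := by omega
        simp only [dif_pos h2, Finset.coe_filter, Set.mem_ofPred_eq, Finset.mem_univ, true_and]
        rw [hT]
        left
        refine ⟨by simp, ?_⟩
        apply Fin.ext
        exact hpv _ (by show i + 1 ≤ n - K - 1; omega)
      · intro a ha b hb hab
        rw [Finset.mem_coe, Finset.mem_range] at ha hb
        have h2 : a + 1 < n := by omega
        have h3 : b + 1 < n := by omega
        simp only [dif_pos h2, dif_pos h3] at hab
        have := congrArg Fin.val hab
        simp only at this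
        omega
    rwa [Finset.card_range] at h1

theorem large_values {V : Type} [Fintype V] (G : SimpleGraph V) (k : ℕ) (hk2 : 2 ≤ k) (hk : G.chromaticNumber = k)
    (hno : ∀ (c : G.Coloring (Fin k)) (i j : Fin k), i ≠ j → ¬ (G.induce {x | c x = i ∨ c x = j}).IsAcyclic)
    (K n₀ : ℕ) : ∃ n : ℕ, n₀ ≤ n ∧ ∃ T : SimpleGraph (Fin n), T.IsTree ∧ (∀ x, deg T x + K ≤ n) ∧
      n - 1 + surplus G < classRamsey G T := by
  classical
  obtain ⟨N, H, hN, hdeg, hacy⟩ := high_girth (surplus G + K + n₀ + 10) (Fintype.card V)
  have hNd : surplus G + K + n₀ + 10 + 1 ≤ N := by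
    have h1 := hdeg ⟨0, by omega⟩
    unfold deg at h1
    have h2 := dg_compl_of_mem H ⟨0, by omega⟩ Finset.univ (Finset.mem_univ _)
    have h3 := dg_add_nd H (⟨0, by omega⟩ : Fin N) Finset.univ
    rw [Finset.card_univ, Fintype.card_fin] at h3
    omega
  obtain ⟨T, hT, hTd, x₀, hx₀⟩ := noFor_star (N + 1 - surplus G) K (by omega)
  refine ⟨N + 1 - surplus G, by omega, T, hT, hTd, ?_⟩
  have hk' : G.chromaticNumber.toNat = k := by rw [hk]; rfl
  have hmain := lt_class G (by omega) T H ?_ ?_
  · rw [Fintype.card_fin] at hmain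
    omega
  · subst hk'
    rintro ⟨c, i, j, hc, hij, ⟨φ⟩⟩
    apply hno c i j hij
    set S : Finset (Fin N) := Finset.univ.image (fun x => φ x) with hS
    have hcard : S.card ≤ Fintype.card V := by
      refine Finset.card_image_le.trans ?_
      rw [Finset.card_univ]
      exact Fintype.card_subtype_le _
    have h1 := hacy S hcard
    let ψ : G.induce {x | c x = i ∨ c x = j} →g H.induce (S : Set (Fin N)) :=
      ⟨fun x => ⟨φ x, by rw [hS, Finset.mem_coe]; exact Finset.mem_image_of_mem _ (Finset.mem_univ x)⟩,
        fun {a b} hab => φ.toHom.map_adj hab⟩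
    refine h1.comap ψ ?_
    intro a b hab
    exact φ.injective (congrArg Subtype.val hab)
  · rintro ⟨φ⟩
    have h1 : deg T x₀ ≤ dg Hᶜ (φ x₀) Finset.univ := by
      unfold deg dg
      apply Finset.card_le_card_of_injOn (fun y => φ y)
      · intro y hy
        have hy2 := (Finset.mem_filter.mp (Finset.mem_coe.mp hy)).2
        exact Finset.mem_coe.mpr ((@Finset.mem_filter _ _ (_) _ _).mpr ⟨Finset.mem_univ _, φ.toHom.map_adj hy2⟩)
      · intro a _ b _ hab
        exact φ.injective hab
    have h2 := dg_compl_of_mem H (φ x₀) Finset.univ (Finset.mem_univ _)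
    have h3 := dg_add_nd H (φ x₀) Finset.univ
    rw [Finset.card_univ, Fintype.card_fin] at h3
    have h4 := hdeg (φ x₀)
    unfold deg at h4
    omega

end H67.AF
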