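import Pool.Agent.H67.AF.UpperF
import Pool.Agent.H67.AF.ContF
import Pool.Agent.H67.AF.NoFor
import Pool.Agent.H67.AS.MainA

/-! # AF.MainF : graphs with a forest in the decomposition class (assembly) -/

namespace H67.AF

open SimpleGraph Pool.Agent.H62.Decomp H67.SG H67.AS H57.SD

theorem forest_values {V : Type} [Fintype V] (G : SimpleGraph V) (k : ℕ) (hk2 : 2 ≤ k) (hk : G.chromaticNumber = k)
    (c : G.Coloring (Fin k)) (i j : Fin k) (hij : i ≠ j) (hF : (G.induce {x | c x = i ∨ c x = j}).IsAcyclic) :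
    ∃ K n₀ : ℕ, ∀ n : ℕ, n₀ ≤ n → ∀ T : SimpleGraph (Fin n), T.IsTree → (∀ x, deg T x + K ≤ n) →
      ramsey G T = (k - 1) * (n - 1) + surplus G ∧ classRamsey G T = n - 1 + surplus G := by
  classical
  have hne : Nonempty V := by
    by_contra hV
    rw [not_nonempty_iff] at hV
    have h0 : G.chromaticNumber ≤ (0 : ℕ) := by
      rw [chromaticNumber_le_iff_colorable]
      exact ⟨⟨fun x => hV.elim x, fun {x} => hV.elim x⟩⟩
    rw [hk] at h0
    have h1 : k ≤ 0 := by exact_mod_cast h0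
    omega
  obtain ⟨f, i', hfi⟩ := surplus_spec G k hk2 hk
  have hs := surplus_pos G k hk2 hk
  have hm : 1 ≤ Fintype.card V := Fintype.card_pos
  obtain ⟨K1, n1, h1⟩ := upper_f (k - 1) (Fintype.card V) (surplus G) (by omega) hm hs
    (G.induce {x | c x = i ∨ c x = j}) hF
  obtain ⟨K2, n2, h2⟩ := upper_f 1 (Fintype.card V) (surplus G) le_rfl hm hs
    (G.induce {x | c x = i ∨ c x = j}) hF
  refine ⟨max K1 K2, max (max n1 n2) (Fintype.card V), fun n hn T hT hK => ⟨?_, ?_⟩⟩
  · refine le_antisymm (ramsey_le G T _ fun C => ?_)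
      (ramsey_low G k hk2 hk T hT (le_trans (le_max_right _ _) hn))
    by_cases hS : HasS (k - 1) (Fintype.card V) (surplus G) C
    · left
      obtain ⟨q, rfl⟩ : ∃ q, k = q + 1 := ⟨k - 1, by omega⟩
      exact cont_S G q (surplus G) f i' hfi.le C hS
    by_cases hFC : HasF (G.induce {x | c x = i ∨ c x = j}) (k - 1) (Fintype.card V) C
    · left
      obtain ⟨q, rfl⟩ : ∃ q, k = q + 1 := ⟨k - 1, by omega⟩
      exact cont_F G q c i j hij C hFC
    · exact Or.inr (h1 n (le_trans (le_trans (le_max_left _ _) (le_max_left _ _)) hn) T hT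
        (fun x => le_trans (Nat.add_le_add_left (le_max_left _ _) _) (hK x)) (Fin _) C (by simp) hS hFC)
  · refine le_antisymm (class_le G T _ fun C => ?_)
      (class_low G k hk2 hk T hT (le_trans (le_max_right _ _) hn))
    by_cases hS : HasS 1 (Fintype.card V) (surplus G) C
    · exact Or.inl (member_S G k hk2 hk (surplus G) f i' hfi.le C hS)
    by_cases hFC : HasF (G.induce {x | c x = i ∨ c x = j}) 1 (Fintype.card V) C
    · exact Or.inl (member_F G k hk c i j hij C _ hFC)
    · exact Or.inr (h2 n (le_trans (le_trans (le_max_right _ _) (le_max_left _ _)) hn) T hT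
        (fun x => le_trans (Nat.add_le_add_left (le_max_right _ _) _) (hK x)) (Fin _) C (by simp) hS hFC)

theorem forest_iff {V : Type} [Fintype V] (G : SimpleGraph V) (k : ℕ) (hk2 : 2 ≤ k) (hk : G.chromaticNumber = k) :
    (∃ K n₀ : ℕ, ∀ n : ℕ, n₀ ≤ n → ∀ T : SimpleGraph (Fin n), T.IsTree → (∀ x, deg T x + K ≤ n) →
      ramsey G T = (k - 1) * (n - 1) + surplus G ∧ classRamsey G T = n - 1 + surplus G) ↔
    ∃ (c : G.Coloring (Fin k)) (i j : Fin k), i ≠ j ∧ (G.induce {x | c x = i ∨ c x = j}).IsAcyclic := by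
  constructor
  · rintro ⟨K, n₀, h⟩
    by_contra hcon
    push Not at hcon
    obtain ⟨n, hn, T, hT, hK, hlt⟩ := large_values G k hk2 hk (fun c i j hij => hcon c i j hij) K n₀
    have := (h n hn T hT hK).2
    omega
  · rintro ⟨c, i, j, hij, hF⟩
    exact forest_values G k hk2 hk c i j hij hF

end H67.AF
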