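import Pool.Agent.H67.AF.Def
import Pool.Agent.H67.AF.ForEmb

/-! # AF.NoF : the classes are degenerate (about 130 lines; compare `H67.AS.KFr`)

Suppose `S ⊆ V` is nonempty and all `x ∈ S` have `card A ≤ dg C x S`: `forest_embed` gives `f`. Choose `Z j ⊆ P j` (`j ≠ i`) with `m` elements one after the other (induction over a finset of indices not containing `i`), all elements joined in `C` to the at most `card A` vertices `f a ∈ V` (at most `g` non-neighbours each in `P j`) and to the
elements of the sets `Z l` already chosen (at most `q m` elements, at most `e` non-neighbours each): at least `n - e - card A * g - q m e ≥ m` elements are available. This is `HasF F q m C`, excluded. -/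

namespace H67.AF

open SimpleGraph Pool.Agent.H62.Decomp H67.SG H67.AS

/-- the step of the choice of the sets `Z j` -/
private lemma choose_auxF {W : Type} (C : SimpleGraph W) (q m r n e g : ℕ) (P : Fin q → Finset W) (i : Fin q)
    (V : Finset W) (hsz : ∀ j, n ≤ (P j).card + e)
    (hcr : ∀ j l, j ≠ l → ∀ x ∈ P j, nd C x (P l) ≤ e)
    (hV : ∀ y ∈ V, ∀ j, j ≠ i → nd C y (P j) ≤ g) (hn : r * g + q * m * e + e + m ≤ n)
    (Y : Finset W) (hYV : Y ⊆ V) (hY : Y.card ≤ r) (J : Finset (Fin q)) :
    i ∉ J → ∃ Z : Fin q → Finset W, (∀ j ∈ J, Z j ⊆ P j ∧ (Z j).card = m ∧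
      ∀ z ∈ Z j, ∀ x ∈ Y, C.Adj x z) ∧
      ∀ j ∈ J, ∀ l ∈ J, j ≠ l → ∀ y ∈ Z j, ∀ z ∈ Z l, C.Adj y z := by
  classical
  refine Finset.induction_on J ?_ ?_
  · intro _
    exact ⟨fun _ => ∅, by simp, by simp⟩
  · intro j J hjJ ih hi
    rw [Finset.mem_insert, not_or] at hi
    obtain ⟨hij, hiJ⟩ := hi
    have hji : j ≠ i := fun h => hij h.symm
    obtain ⟨Z, hZ1, hZ2⟩ := ih hiJ
    let A : Finset W := Y.biUnion (fun x => (P j).filter (fun y => ¬ C.Adj x y))
    let D : Finset W := J.biUnion (fun l => (Z l).biUnion (fun z => (P j).filter (fun y => ¬ C.Adj z y)))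
    have hA : A.card ≤ r * g := by
      calc A.card ≤ ∑ x ∈ Y, ((P j).filter (fun y => ¬ C.Adj x y)).card := Finset.card_biUnion_le
        _ ≤ ∑ x ∈ Y, g := Finset.sum_le_sum (fun x hx => hV x (hYV hx) j hji)
        _ = Y.card * g := by rw [Finset.sum_const, smul_eq_mul]
        _ ≤ r * g := Nat.mul_le_mul_right g hY
    have hD : D.card ≤ q * m * e := by
      calc D.card ≤ ∑ l ∈ J, ((Z l).biUnion (fun z => (P j).filter (fun y => ¬ C.Adj z y))).card :=
            Finset.card_biUnion_le
        _ ≤ ∑ l ∈ J, m * e := by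
            apply Finset.sum_le_sum
            intro l hl
            have hlj : l ≠ j := fun h => hjJ (h ▸ hl)
            calc ((Z l).biUnion (fun z => (P j).filter (fun y => ¬ C.Adj z y))).card
                ≤ ∑ z ∈ Z l, ((P j).filter (fun y => ¬ C.Adj z y)).card := Finset.card_biUnion_le
              _ ≤ ∑ z ∈ Z l, e := Finset.sum_le_sum (fun z hz => hcr l j hlj z ((hZ1 l hl).1 hz))
              _ = m * e := by rw [Finset.sum_const, smul_eq_mul, (hZ1 l hl).2.1]
        _ = J.card * (m * e) := by rw [Finset.sum_const, smul_eq_mul]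
        _ ≤ q * (m * e) := by
            apply Nat.mul_le_mul_right
            have := Finset.card_le_univ J
            simpa using this
        _ = q * m * e := by ring
    have hbad : (A ∪ D).card ≤ r * g + q * m * e := by
      have h1 := Finset.card_union_le A D
      omega
    have hgood : m ≤ ((P j) \ (A ∪ D)).card := by
      have h1 := Finset.le_card_sdiff (A ∪ D) (P j)
      have h2 := hsz j
      omega
    obtain ⟨S, hS, hSc⟩ := Finset.exists_subset_card_eq hgood
    have hSP : ∀ y ∈ S, y ∈ P j := fun y hy => (Finset.mem_sdiff.1 (hS hy)).1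
    have hSA : ∀ y ∈ S, ∀ x ∈ Y, C.Adj x y := by
      intro y hy x hx
      by_contra h
      exact (Finset.mem_sdiff.1 (hS hy)).2 (Finset.mem_union_left _ (Finset.mem_biUnion.2
        ⟨x, hx, Finset.mem_filter.2 ⟨hSP y hy, h⟩⟩))
    have hSD : ∀ y ∈ S, ∀ l ∈ J, ∀ z ∈ Z l, C.Adj z y := by
      intro y hy l hl z hz
      by_contra h
      exact (Finset.mem_sdiff.1 (hS hy)).2 (Finset.mem_union_right _
        (Finset.mem_biUnion.2 ⟨l, hl, Finset.mem_biUnion.2 ⟨z, hz,
          Finset.mem_filter.2 ⟨hSP y hy, h⟩⟩⟩))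
    have hupd : ∀ l ∈ J, Function.update Z j S l = Z l := by
      intro l hl
      have hlj : l ≠ j := fun h => hjJ (h ▸ hl)
      exact Function.update_of_ne hlj S Z
    refine ⟨Function.update Z j S, ?_, ?_⟩
    · intro l hl
      rw [Finset.mem_insert] at hl
      rcases hl with rfl | hl
      · rw [Function.update_self]
        exact ⟨hSP, hSc, fun z hz x hx => hSA z hz x hx⟩
      · rw [hupd l hl]
        exact hZ1 l hl
    · intro l hl k hk hlk y hy z hz
      rw [Finset.mem_insert] at hl hk
      rcases hl with rfl | hl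
      · rcases hk with rfl | hk
        · exact absurd rfl hlk
        · rw [Function.update_self] at hy
          rw [hupd k hk] at hz
          exact (hSD y hy k hk z hz).symm
      · rcases hk with rfl | hk
        · rw [Function.update_self] at hz
          rw [hupd l hl] at hy
          exact hSD z hz l hl y hy
        · rw [hupd l hl] at hy
          rw [hupd k hk] at hz
          exact hZ2 l hl k hk hlk y hy z hz

theorem degen_of_noF {A : Type} [Fintype A] (F : SimpleGraph A) (hF : F.IsAcyclic) {W : Type} (C : SimpleGraph W)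
    (q m n e g : ℕ) (P : Fin q → Finset W) (i : Fin q) (V : Finset W) (hsz : ∀ j, n ≤ (P j).card + e)
    (hcr : ∀ j l, j ≠ l → ∀ x ∈ P j, nd C x (P l) ≤ e) (hV : ∀ y ∈ V, ∀ j, j ≠ i → nd C y (P j) ≤ g)
    (hn : Fintype.card A * g + q * m * e + e + m ≤ n) (hno : ¬ HasF F q m C) : Degen C V (Fintype.card A) := by
  classical
  intro S hSV hSn
  by_contra hcon
  push Not at hcon
  obtain ⟨f, hf, hfS, hfA⟩ := forest_embed F hF C S hSn hcon
  have hYV : Finset.univ.image f ⊆ V := by
    intro x hx
    obtain ⟨a, -, rfl⟩ := Finset.mem_image.1 hx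
    exact hSV (hfS a)
  have hY : (Finset.univ.image f).card ≤ Fintype.card A := Finset.card_image_le
  obtain ⟨Z, hZ1, hZ2⟩ := choose_auxF C q m (Fintype.card A) n e g P i V hsz hcr hV hn
    (Finset.univ.image f) hYV hY (Finset.univ.erase i) (Finset.notMem_erase i _)
  have hmem : ∀ j, j ≠ i → j ∈ Finset.univ.erase i := fun j hj =>
    Finset.mem_erase.2 ⟨hj, Finset.mem_univ _⟩
  refine hno ⟨i, f, Z, hf, hfA, ?_, ?_, ?_⟩
  · intro j hj
    exact (hZ1 j (hmem j hj)).2.1
  · intro j hj z hz a
    exact (hZ1 j (hmem j hj)).2.2 z hz (f a) (Finset.mem_image_of_mem f (Finset.mem_univ a))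
  · intro j l hj hl hjl y hy z hz
    exact hZ2 j (hmem j hj) l (hmem l hl) hjl y hy z hz

end H67.AF
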