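import Pool.Agent.H67.AF.Def
import Pool.Agent.H67.SG.TDeg

/-! # AF.NumF : counting (about 170 lines)

`degsum`: for every `S ⊆ V`: `∑ x ∈ S, dg C x S ≤ 2 a |S|`, induction over `|S|`: take `x ∈ S` with `dg C x S < a` and `S' = S.erase x`; `∑_S dg C y S = ∑_S' dg C y S' + 2 dg C x S` (each neighbour of `x` loses one).
`few_high`: immediate from `degsum`.
`crit_bound_f`: the positions `A = Z.image φ ⊆ V` are as many as `Z`. `|A| n ≤ 8 ∑_{v ∈ V} wtM v = 8 ∑_{x} deg x * |{v ∈ V | C.Adj (φ x) v}|` over the hubs `x ∈ X`, `x ∉ B₀`, `φ x ∈ V`, which lie in `G` (`hub`), so `≤ 8 r ∑ deg ≤ 16 r n` (`sum_deg`); `n ≥ 1` if `Z` is nonempty.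
`avail_f`: a vertex `y ∉ X`, not a hub, not a neighbour of `redM v` and not a neighbour of `lowV` is in `avail`: if `x ∈ X`, `T.Adj x y`, `C.Adj (φ x) v` then `φ x ∈ V` (`closed`), `x ∉ B₀` (`hv`), and `x` is in `redM v` or in `lowV`. So `n ≤ |avail \ hubs| + |X| + |hubs| + wtM v + c D`.
`hubs_card_f`: `hubs T 64` has at most `n / 32` elements; `big_card_f`: at most 128 vertices have `n ≤ 64 deg`. `hub_out`: `∑_{z ≠ x} (deg z - 1) = 2 (n-1) - deg x - (n-1)` (all degrees are `≥ 1`, `deg_pos`), and every hub `z ≠ x` contributes at least `D - 1`. -/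

namespace H67.AF

open SimpleGraph Pool.Agent.H62.Decomp H67.SG H67.AS

theorem degsum {W : Type} (C : SimpleGraph W) (V : Finset W) (a : ℕ) (h : Degen C V a) :
    ∑ x ∈ V, dg C x V ≤ 2 * a * V.card := by
  classical
  have key : ∀ S : Finset W, S ⊆ V → ∑ x ∈ S, dg C x S ≤ 2 * a * S.card := by
    intro S
    induction S using Finset.strongInduction with
    | H S ih =>
      intro hS
      rcases S.eq_empty_or_nonempty with rfl | hne
      · simp
      obtain ⟨x, hx, hxa⟩ := h S hS hne
      have h1 := ih (S.erase x) (Finset.erase_ssubset hx) ((Finset.erase_subset _ _).trans hS)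
      have hins : insert x (S.erase x) = S := Finset.insert_erase hx
      have hnot : x ∉ S.erase x := Finset.notMem_erase x S
      have h2 : ∀ y, dg C y S = dg C y (S.erase x) + (if C.Adj y x then 1 else 0) := by
        intro y
        unfold dg
        conv_lhs => rw [← hins, Finset.filter_insert]
        split_ifs with hy
        · rw [Finset.card_insert_of_notMem]
          intro hmem
          exact hnot (Finset.mem_filter.1 hmem).1
        · rfl
      have h3 : dg C x S = dg C x (S.erase x) := by
        rw [h2 x, if_neg (fun hc => hc.ne rfl), add_zero]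
      have h4 : ∑ y ∈ S.erase x, (if C.Adj y x then 1 else 0) = dg C x (S.erase x) := by
        rw [← Finset.card_filter]
        unfold dg
        congr 1
        ext y
        simp only [Finset.mem_filter]
        exact and_congr_right fun _ => ⟨fun hc => hc.symm, fun hc => hc.symm⟩
      have h5 : ∑ y ∈ S, dg C y S = dg C x S + ∑ y ∈ S.erase x, dg C y S :=
        (Finset.add_sum_erase S (fun y => dg C y S) hx).symm
      have h6 : ∑ y ∈ S.erase x, dg C y S = ∑ y ∈ S.erase x, dg C y (S.erase x) +
          dg C x (S.erase x) := by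
        rw [← h4, ← Finset.sum_add_distrib]
        exact Finset.sum_congr rfl fun y _ => h2 y
      have h7 : (S.erase x).card + 1 = S.card := Finset.card_erase_add_one hx
      rw [h5, h6, ← h3, ← h7]
      have h8 : 2 * a * ((S.erase x).card + 1) = 2 * a * (S.erase x).card + 2 * a := by ring
      omega
  exact key V (Finset.Subset.refl _)

open Classical in
theorem few_high {W : Type} (C : SimpleGraph W) (V : Finset W) (a r : ℕ) (h : Degen C V a) :
    (V.filter (fun x => r < dg C x V)).card * r ≤ 2 * a * V.card := by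
  have h1 := degsum C V a h
  have h2 : (V.filter (fun x => r < dg C x V)).card * r ≤
      ∑ x ∈ V.filter (fun x => r < dg C x V), dg C x V := by
    rw [← smul_eq_mul]
    refine Finset.card_nsmul_le_sum _ _ _ fun x hx => ?_
    exact (Finset.mem_filter.1 hx).2.le
  exact (h2.trans (Finset.sum_le_sum_of_subset (Finset.filter_subset _ _))).trans h1

theorem crit_bound_f {n : ℕ} {W : Type} {T : SimpleGraph (Fin n)} (hT : T.IsTree) {C : SimpleGraph W}
    {V U G : Finset W} {B₀ : Finset (Fin n)} {D : ℕ} {X : Finset (Fin n)} {φ : Fin n → W}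
    (hP : PlF T C V U G B₀ D X φ) (r : ℕ) (hr : ∀ v ∈ G, dg C v V ≤ r) (Z : Finset (Fin n))
    (hZ : CritF T C V B₀ D X φ Z) : Z.card ≤ 16 * r := by
  classical
  rcases Nat.eq_zero_or_pos n with hn | hn
  · subst hn
    have : Z = ∅ := Finset.eq_empty_of_forall_notMem fun z => z.elim0
    rw [this, Finset.card_empty]
    exact Nat.zero_le _
  have h1 : Z.card * n ≤ ∑ z ∈ Z, 8 * wtM T C V B₀ D X φ (φ z) := by
    rw [← smul_eq_mul]
    exact Finset.card_nsmul_le_sum _ _ _ fun z hz => (hZ z hz).2.2
  have h2 : ∀ z, wtM T C V B₀ D X φ (φ z) = ∑ x ∈ X.filter (fun x => φ x ∈ V ∧ x ∉ B₀ ∧ D ≤ deg T x),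
      (if C.Adj (φ x) (φ z) then deg T x else 0) := by
    intro z
    unfold wtM redM
    rw [← Finset.sum_filter, Finset.filter_filter]
    refine Finset.sum_congr ?_ fun _ _ => rfl
    ext x
    simp only [Finset.mem_filter]
    tauto
  have h3 : ∑ z ∈ Z, wtM T C V B₀ D X φ (φ z) ≤ r * (2 * n) := by
    rw [Finset.sum_congr rfl fun z _ => h2 z, Finset.sum_comm]
    have h4 : ∀ x ∈ X.filter (fun x => φ x ∈ V ∧ x ∉ B₀ ∧ D ≤ deg T x),
        ∑ z ∈ Z, (if C.Adj (φ x) (φ z) then deg T x else 0) ≤ r * deg T x := by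
      intro x hx
      rw [Finset.mem_filter] at hx
      rw [← Finset.sum_filter, Finset.sum_const, smul_eq_mul]
      refine Nat.mul_le_mul_right _ ?_
      have hG := hP.hub x hx.1 (Or.inr hx.2.2.2)
      refine le_trans ?_ (hr (φ x) hG)
      unfold dg
      refine Finset.card_le_card_of_injOn φ ?_ ?_
      · intro z hz
        rw [Finset.mem_coe, Finset.mem_filter] at hz
        rw [Finset.mem_coe, Finset.mem_filter]
        exact ⟨(hZ z hz.1).2.1, hz.2⟩
      · intro z hz z' hz' hzz
        rw [Finset.mem_coe, Finset.mem_filter] at hz hz'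
        exact hP.inj z (hZ z hz.1).1 z' (hZ z' hz'.1).1 hzz
    refine (Finset.sum_le_sum h4).trans ?_
    rw [← Finset.mul_sum]
    refine Nat.mul_le_mul_left _ ?_
    have h5 := sum_deg T hT
    have h6 : ∑ x ∈ X.filter (fun x => φ x ∈ V ∧ x ∉ B₀ ∧ D ≤ deg T x), deg T x ≤ ∑ x, deg T x :=
      Finset.sum_le_sum_of_subset (Finset.subset_univ _)
    omega
  rw [← Finset.mul_sum] at h1
  have h7 : Z.card * n ≤ (16 * r) * n := by
    calc Z.card * n ≤ 8 * (r * (2 * n)) := h1.trans (Nat.mul_le_mul_left 8 h3)
      _ = (16 * r) * n := by ring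
  exact Nat.le_of_mul_le_mul_right h7 hn

theorem avail_f {n : ℕ} {W : Type} {T : SimpleGraph (Fin n)} {C : SimpleGraph W} {V U G : Finset W}
    {B₀ : Finset (Fin n)} {D : ℕ} {X : Finset (Fin n)} {φ : Fin n → W} (hP : PlF T C V U G B₀ D X φ) (v : W)
    (hv : redB C V B₀ X φ v = ∅) (hw : 4 * wtM T C V B₀ D X φ v ≤ n) (c : ℕ) (hc : (lowV T V D X φ).card ≤ c)
    (hX : 4 * (X.card + (hubs T D).card + c * D) ≤ n) :
    n ≤ 2 * ((avail T C X φ v) \ hubs T D).card := by
  classical
  have hdeg : ∀ x : Fin n, (Finset.univ.filter (fun y => T.Adj x y)).card = deg T x := by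
    intro x
    unfold deg dg
    congr
  have hsub : (Finset.univ : Finset (Fin n)) ⊆ ((((avail T C X φ v) \ hubs T D) ∪ X) ∪ hubs T D) ∪
      (((redM T C V B₀ D X φ v).biUnion (fun x => Finset.univ.filter (fun y => T.Adj x y))) ∪
        ((lowV T V D X φ).biUnion (fun x => Finset.univ.filter (fun y => T.Adj x y)))) := by
    intro y _
    by_contra hcon
    simp only [Finset.mem_union, not_or, Finset.mem_sdiff, Finset.mem_biUnion, Finset.mem_filter,
      Finset.mem_univ, true_and, not_exists, not_and] at hcon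
    obtain ⟨⟨⟨h1, h2⟩, h3⟩, h4, h5⟩ := hcon
    have h6 : y ∈ avail T C X φ v := by
      unfold avail
      rw [Finset.mem_filter]
      refine ⟨Finset.mem_univ _, h2, fun x hx hxy hxv => ?_⟩
      have hV : φ x ∈ V := by
        rcases hP.mem x hx with h | h
        · exact h
        · exact absurd (hP.closed x hx h y hxy) h2
      have hB : x ∉ B₀ := by
        intro hB
        have : x ∈ redB C V B₀ X φ v := by
          unfold redB
          exact Finset.mem_filter.2 ⟨hx, hV, hB, hxv⟩
        rw [hv] at this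
        exact Finset.notMem_empty _ this
      by_cases hD : D ≤ deg T x
      · refine h4 x ?_ hxy
        unfold redM
        exact Finset.mem_filter.2 ⟨hx, hV, hB, hD, hxv⟩
      · refine h5 x ?_ hxy
        unfold lowV
        exact Finset.mem_filter.2 ⟨hx, hV, not_le.1 hD⟩
    exact h3 (not_not.1 (h1 h6))
  have h1 := Finset.card_le_card hsub
  rw [Finset.card_univ, Fintype.card_fin] at h1
  have h2 := h1.trans ((Finset.card_union_le _ _).trans (Nat.add_le_add
    ((Finset.card_union_le _ _).trans (Nat.add_le_add_right (Finset.card_union_le _ _) _))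
    (Finset.card_union_le _ _)))
  have h3 : ((redM T C V B₀ D X φ v).biUnion (fun x => Finset.univ.filter (fun y => T.Adj x y))).card ≤
      wtM T C V B₀ D X φ v := by
    unfold wtM
    exact Finset.card_biUnion_le.trans (Finset.sum_le_sum fun x _ => (hdeg x).le)
  have h4 : ((lowV T V D X φ).biUnion (fun x => Finset.univ.filter (fun y => T.Adj x y))).card ≤ c * D := by
    refine (Finset.card_biUnion_le_card_mul _ _ D fun x hx => ?_).trans (Nat.mul_le_mul_right _ hc)
    rw [hdeg x]
    unfold lowV at hx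
    exact (Finset.mem_filter.1 hx).2.2.le
  omega

open Classical in
theorem big_card_f {n : ℕ} (T : SimpleGraph (Fin n)) (hT : T.IsTree) (hn : 1 ≤ n) :
    (Finset.univ.filter (fun x : Fin n => n ≤ 64 * deg T x)).card ≤ 128 := by
  have h1 : (Finset.univ.filter (fun x : Fin n => n ≤ 64 * deg T x)).card * n ≤
      ∑ x ∈ Finset.univ.filter (fun x : Fin n => n ≤ 64 * deg T x), 64 * deg T x := by
    rw [← smul_eq_mul]
    exact Finset.card_nsmul_le_sum _ _ _ fun x hx => (Finset.mem_filter.1 hx).2
  have h2 : ∑ x ∈ Finset.univ.filter (fun x : Fin n => n ≤ 64 * deg T x), 64 * deg T x ≤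
      64 * ∑ x, deg T x := by
    rw [Finset.mul_sum]
    exact Finset.sum_le_sum_of_subset (Finset.subset_univ _)
  have h3 := sum_deg T hT
  have h4 : (Finset.univ.filter (fun x : Fin n => n ≤ 64 * deg T x)).card * n ≤ 128 * n := by omega
  exact Nat.le_of_mul_le_mul_right h4 hn

/-- few hubs apart from `x` -/
theorem hub_out {n : ℕ} (T : SimpleGraph (Fin n)) (hT : T.IsTree) (hn : 2 ≤ n) (D : ℕ) (x : Fin n) :
    (D - 1) * ((hubs T D).erase x).card ≤ n - 1 - deg T x := by
  classical
  have h1 : (D - 1) * ((hubs T D).erase x).card ≤ ∑ z ∈ (hubs T D).erase x, (deg T z - 1) := by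
    rw [mul_comm, ← smul_eq_mul]
    refine Finset.card_nsmul_le_sum _ _ _ fun z hz => ?_
    have h2 := (Finset.mem_erase.1 hz).2
    unfold hubs at h2
    have h3 := (Finset.mem_filter.1 h2).2
    omega
  have h2 : ∑ z ∈ (hubs T D).erase x, (deg T z - 1) ≤ ∑ z ∈ Finset.univ.erase x, (deg T z - 1) :=
    Finset.sum_le_sum_of_subset (Finset.erase_subset_erase _ (Finset.subset_univ _))
  have h3 := sum_deg T hT
  have h4 : ∑ z ∈ Finset.univ.erase x, (deg T z - 1) + ∑ _z ∈ Finset.univ.erase x, 1 =
      ∑ z ∈ Finset.univ.erase x, deg T z := by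
    rw [← Finset.sum_add_distrib]
    refine Finset.sum_congr rfl fun z _ => ?_
    have := deg_pos T hT hn z
    omega
  have h5 : ∑ _z ∈ (Finset.univ.erase x : Finset (Fin n)), 1 = n - 1 := by
    rw [Finset.sum_const, smul_eq_mul, mul_one, Finset.card_erase_of_mem (Finset.mem_univ _),
      Finset.card_univ, Fintype.card_fin]
  have h6 : deg T x + ∑ z ∈ Finset.univ.erase x, deg T z = ∑ z, deg T z :=
    Finset.add_sum_erase _ _ (Finset.mem_univ _)
  omega

/-- the number of vertices outside the closed neighbourhood of `x` -/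
theorem outs_single {n : ℕ} (T : SimpleGraph (Fin n)) (x : Fin n) : (outs T {x}).card + deg T x + 1 = n := by
  classical
  have h1 : (Finset.univ : Finset (Fin n)).card = n := by rw [Finset.card_univ, Fintype.card_fin]
  have h2 : outs T {x} = Finset.univ.filter (fun y => y ≠ x ∧ ¬ T.Adj x y) := by
    ext y
    unfold outs
    simp
  have h3 : (Finset.univ.filter (fun y => T.Adj x y)).card = deg T x := by
    unfold deg dg
    congr
  have h4 := Finset.card_filter_add_card_filter_not (s := (Finset.univ : Finset (Fin n)).erase x)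
    (fun y => T.Adj x y)
  have h5 : ((Finset.univ : Finset (Fin n)).erase x).filter (fun y => T.Adj x y) =
      Finset.univ.filter (fun y => T.Adj x y) := by
    ext y
    simp only [Finset.mem_filter, Finset.mem_erase, Finset.mem_univ, and_true, true_and]
    exact ⟨fun h => h.2, fun h => ⟨h.ne', h⟩⟩
  have h6 : ((Finset.univ : Finset (Fin n)).erase x).filter (fun y => ¬ T.Adj x y) = outs T {x} := by
    rw [h2]
    ext y
    simp only [Finset.mem_filter, Finset.mem_erase, Finset.mem_univ, and_true, true_and]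
  rw [h5, h6, h3] at h4
  have h7 := Finset.card_erase_add_one (Finset.mem_univ x)
  rw [h1] at h7
  omega

end H67.AF
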