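import Pool.Agent.H67.AF.InsF
import Pool.Agent.H67.AF.NumF

/-! # AF.ThinF : placing vertices on the positions red to a vertex of B₀ (about 180 lines)

Let `Th` be the set of the `v ∈ V` with `redB … X φ v ≠ ∅`: at most `|B₀| r` (every `x ∈ B₀` lies in `G`). Induction: while some `v ∈ Th` is unused (`Y` = vertices placed so far in this step, one for each treated `v`, so `|Y| ≤ |Th|`; all of degree `< D`, hence not in `B₀ ⊆ X`, `redB` does not grow: `redB_insert`):
`redB v = {x}` (`few`, for the present placement). The set `outs T {x}` has `n - 1 - deg x ≥ K - 1` elements (`outs_single`), less than half of them are hubs (`hub_out`, `D ≥ 3`). Choose `y ∈ outs T {x}`, not a hub, not in `X ∪ Y`, not adjacent to an element of `Y` (each has less than `D` neighbours): possible by `hKc`.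
Put `y` on `v`: if `z ∈ X`, `T.Adj z y` and `C.Adj (φ z) v`: `φ z ∈ V` (`closed`), so `z ∈ B₀` (`hXB`), so `z ∈ redB v`, `z = x`, but `y` is not adjacent to `x`. `plf_insert`. -/

namespace H67.AF

open SimpleGraph Pool.Agent.H62.Decomp H67.SG H67.AS

open Classical in
/-- the positions of `V` red to a vertex of `B₀` -/
private noncomputable def thin {n : ℕ} {W : Type} (C : SimpleGraph W) (V : Finset W) (B₀ X : Finset (Fin n))
    (φ : Fin n → W) : Finset W :=
  V.filter (fun v => (redB C V B₀ X φ v).Nonempty)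

private theorem thin_card {n : ℕ} {W : Type} {T : SimpleGraph (Fin n)} {C : SimpleGraph W} {V U G : Finset W}
    {B₀ : Finset (Fin n)} {D : ℕ} {X : Finset (Fin n)} {φ : Fin n → W} (hP : PlF T C V U G B₀ D X φ) (r : ℕ)
    (hr : ∀ v ∈ G, dg C v V ≤ r) : (thin C V B₀ X φ).card ≤ B₀.card * r := by
  classical
  have hsub : thin C V B₀ X φ ⊆ (B₀.filter (fun x => x ∈ X)).biUnion (fun x => V.filter (fun v => C.Adj (φ x) v)) := by
    intro v hv
    unfold thin at hv
    obtain ⟨hvV, x, hx⟩ := Finset.mem_filter.1 hv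
    unfold redB at hx
    obtain ⟨hxX, hxV, hxB, hxv⟩ := Finset.mem_filter.1 hx
    exact Finset.mem_biUnion.2 ⟨x, Finset.mem_filter.2 ⟨hxB, hxX⟩, Finset.mem_filter.2 ⟨hvV, hxv⟩⟩
  refine (Finset.card_le_card hsub).trans ?_
  refine (Finset.card_biUnion_le_card_mul _ _ r ?_).trans (Nat.mul_le_mul_right _ (Finset.card_filter_le _ _))
  intro x hx
  obtain ⟨hxB, hxX⟩ := Finset.mem_filter.1 hx
  have h1 := hr (φ x) (hP.hub x hxX (Or.inl hxB))
  unfold dg at h1
  refine le_trans (le_of_eq ?_) h1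
  congr

/-- the choice of the new vertex -/
private theorem choose_vertex {n : ℕ} {T : SimpleGraph (Fin n)} (hT : T.IsTree) (hn : 2 ≤ n) {D : ℕ} (hD : 3 ≤ D)
    (K : ℕ) (x : Fin n) (hK : deg T x + K ≤ n) (X Y : Finset (Fin n)) (hY : ∀ y ∈ Y, deg T y < D)
    (hb : 2 * (X.card + Y.card * (D + 1)) + 3 ≤ K) :
    ∃ y, y ∉ X ∧ y ∉ Y ∧ ¬ T.Adj x y ∧ (∀ z ∈ Y, ¬ T.Adj z y) ∧ deg T y < D := by
  classical
  have h1 := outs_single T x
  have h2 := hub_out T hT hn D x
  have h3 : 2 * ((hubs T D).erase x).card ≤ (D - 1) * ((hubs T D).erase x).card :=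
    Nat.mul_le_mul_right _ (by omega)
  have h4 : (Y.biUnion (fun z => Finset.univ.filter (fun y => T.Adj z y))).card ≤ Y.card * D := by
    refine Finset.card_biUnion_le_card_mul _ _ D ?_
    intro z hz
    have h5 := (hY z hz).le
    unfold deg dg at h5
    refine le_trans (le_of_eq ?_) h5
    congr
  by_contra hcon
  push Not at hcon
  have hsub : outs T {x} ⊆ ((X ∪ Y) ∪ (Y.biUnion (fun z => Finset.univ.filter (fun y => T.Adj z y)))) ∪
      (hubs T D).erase x := by
    intro y hy
    have hy' : y ≠ x ∧ ¬ T.Adj x y := by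
      unfold outs at hy
      simpa using hy
    by_contra hny
    simp only [Finset.mem_union, not_or, Finset.mem_biUnion, Finset.mem_filter, Finset.mem_univ, true_and,
      not_exists, not_and, Finset.mem_erase] at hny
    obtain ⟨⟨⟨ha, hb'⟩, hc⟩, hd⟩ := hny
    have h5 := hcon y ha hb' hy'.2 hc
    refine hd hy'.1 ?_
    unfold hubs
    exact Finset.mem_filter.2 ⟨Finset.mem_univ _, h5⟩
  have h6 := Finset.card_le_card hsub
  have h7 := h6.trans ((Finset.card_union_le _ _).trans (Nat.add_le_add_right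
    ((Finset.card_union_le _ _).trans (Nat.add_le_add_right (Finset.card_union_le _ _) _)) _))
  have h8 : Y.card * (D + 1) = Y.card * D + Y.card := by ring
  omega

private theorem settle_aux {n : ℕ} {W : Type} {T : SimpleGraph (Fin n)} (hT : T.IsTree) (hn : 2 ≤ n)
    {C : SimpleGraph W} {V U G : Finset W} {B₀ : Finset (Fin n)} {D : ℕ} (hUV : Disjoint V U)
    (K : ℕ) (hK : ∀ x, deg T x + K ≤ n) (c : ℕ) (X : Finset (Fin n))
    (φ : Fin n → W) (hB : B₀ ⊆ X) (hXB : ∀ x ∈ X, φ x ∈ V → x ∈ B₀)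
    (hD : 3 ≤ D) (hKc : 2 * (X.card + c * (D + 1)) + 3 ≤ K) :
    ∀ (t : ℕ) (Y : Finset (Fin n)) (ψ : Fin n → W), Disjoint X Y → (∀ x ∈ X, ψ x = φ x) →
      (∀ y ∈ Y, deg T y < D) → PlF T C V U G B₀ D (X ∪ Y) ψ →
      (∀ v, redB C V B₀ (X ∪ Y) ψ v ⊆ redB C V B₀ X φ v) →
      (∀ S : Finset W, S ⊆ thin C V B₀ X φ → (∀ v ∈ S, ∀ x ∈ X ∪ Y, ψ x ≠ v) → S.card ≤ t) →
      Y.card + t ≤ c →
      ∃ (Y' : Finset (Fin n)) (ψ' : Fin n → W), Disjoint X Y' ∧ (∀ x ∈ X, ψ' x = φ x) ∧ (∀ y ∈ Y', deg T y < D) ∧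
        Y'.card ≤ c ∧ PlF T C V U G B₀ D (X ∪ Y') ψ' ∧ NoB C V B₀ (X ∪ Y') ψ' := by
  classical
  intro t
  induction t with
  | zero =>
    intro Y ψ hdis hψ hdeg hP hred hS hc
    refine ⟨Y, ψ, hdis, hψ, hdeg, by omega, hP, ?_⟩
    intro v hv hfree
    by_contra hne
    have h1 := hS {v} ?_ ?_
    · rw [Finset.card_singleton] at h1
      omega
    · rw [Finset.singleton_subset_iff]
      unfold thin
      exact Finset.mem_filter.2 ⟨hv, (Finset.nonempty_iff_ne_empty.2 hne).mono (hred v)⟩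
    · intro w hw x hx
      rw [Finset.mem_singleton] at hw
      rw [hw]
      exact hfree x hx
  | succ t ih =>
    intro Y ψ hdis hψ hdeg hP hred hS hc
    by_cases hN : NoB C V B₀ (X ∪ Y) ψ
    · exact ⟨Y, ψ, hdis, hψ, hdeg, by omega, hP, hN⟩
    unfold NoB at hN
    push Not at hN
    obtain ⟨v, hv, hfree, hne⟩ := hN
    have hne' : (redB C V B₀ (X ∪ Y) ψ v).Nonempty := hne
    obtain ⟨x, hx⟩ := hne'
    have huniq : ∀ z ∈ redB C V B₀ (X ∪ Y) ψ v, z = x := by
      intro z hz
      exact (Finset.card_le_one.1 (hP.few v hv)) z hz x hx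
    have hvth : v ∈ thin C V B₀ X φ := by
      unfold thin
      exact Finset.mem_filter.2 ⟨hv, x, hred v hx⟩
    have hYc : Y.card * (D + 1) ≤ c * (D + 1) := Nat.mul_le_mul_right _ (by omega)
    obtain ⟨y, hyX, hyY, hxy, hzy, hyD⟩ := choose_vertex hT hn hD K x (hK x) X Y hdeg (by omega)
    have hyB : y ∉ B₀ := fun h => hyX (hB h)
    have hyXY : y ∉ X ∪ Y := fun h => (Finset.mem_union.1 h).elim hyX hyY
    have hblue : ∀ z ∈ X ∪ Y, T.Adj z y → ¬ C.Adj (ψ z) v := by
      intro z hz hzy' hzv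
      rcases Finset.mem_union.1 hz with hzX | hzY
      · have hzV : ψ z ∈ V := by
          rcases hP.mem z hz with h | h
          · exact h
          · exact absurd (hP.closed z hz h y hzy') hyXY
        have hzB : z ∈ B₀ := hXB z hzX (by rw [← hψ z hzX]; exact hzV)
        have hzr : z ∈ redB C V B₀ (X ∪ Y) ψ v := by
          unfold redB
          exact Finset.mem_filter.2 ⟨hz, hzV, hzB, hzv⟩
        have := huniq z hzr
        rw [this] at hzy'
        exact hxy hzy'
      · exact hzy z hzY hzy'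
    have hP' : PlF T C V U G B₀ D (insert y (X ∪ Y)) (Function.update ψ y v) :=
      plf_insert hP hUV y v hyXY hv hfree hblue
        (fun h => h.elim (fun h => absurd h hyB) (fun h => absurd h (by omega))) (fun h => absurd h hyB)
    have e1 : X ∪ insert y Y = insert y (X ∪ Y) := by rw [Finset.union_insert]
    have hne2 : ∀ z ∈ X ∪ Y, z ≠ y := fun z hz h => hyXY (h ▸ hz)
    have hupd : ∀ z ∈ X ∪ Y, Function.update ψ y v z = ψ z := fun z hz => Function.update_of_ne (hne2 z hz) _ _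
    refine ih (insert y Y) (Function.update ψ y v) ?_ ?_ ?_ ?_ ?_ ?_ ?_
    · rw [Finset.disjoint_insert_right]
      exact ⟨hyX, hdis⟩
    · intro z hz
      rw [hupd z (Finset.mem_union_left _ hz), hψ z hz]
    · intro z hz
      rcases Finset.mem_insert.1 hz with h | h
      · rw [h]; exact hyD
      · exact hdeg z h
    · rw [e1]; exact hP'
    · intro w
      rw [e1]
      exact (redB_insert C V B₀ (X ∪ Y) ψ y v hyXY hyB w).trans (hred w)
    · intro S hSsub hSfree
      have h1 : v ∉ S := by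
        intro h
        have := hSfree v h y (by rw [e1]; exact Finset.mem_insert_self _ _)
        rw [Function.update_self] at this
        exact this rfl
      have h2 := hS (insert v S) ?_ ?_
      · rw [Finset.card_insert_of_notMem h1] at h2
        omega
      · intro w hw
        rcases Finset.mem_insert.1 hw with h | h
        · rw [h]; exact hvth
        · exact hSsub h
      · intro w hw z hz
        rcases Finset.mem_insert.1 hw with h | h
        · rw [h]; exact hfree z hz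
        · have h3 := hSfree w h z (by rw [e1]; exact Finset.mem_insert_of_mem hz)
          rw [hupd z hz] at h3
          exact h3
    · rw [Finset.card_insert_of_notMem hyY]
      omega

theorem settle_thin {n : ℕ} {W : Type} {T : SimpleGraph (Fin n)} (hT : T.IsTree) (hn : 2 ≤ n)
    {C : SimpleGraph W} {V U G : Finset W} {B₀ : Finset (Fin n)} {D : ℕ} (hUV : Disjoint V U) (hGV : G ⊆ V)
    (K : ℕ) (hK : ∀ x, deg T x + K ≤ n) (r : ℕ) (hr : ∀ v ∈ G, dg C v V ≤ r) (X : Finset (Fin n))
    (φ : Fin n → W) (hP : PlF T C V U G B₀ D X φ) (hB : B₀ ⊆ X) (hXB : ∀ x ∈ X, φ x ∈ V → x ∈ B₀)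
    (hD : 3 ≤ D) (hKc : 2 * (X.card + B₀.card * r * (D + 1)) + 3 ≤ K) :
    ∃ (Y : Finset (Fin n)) (ψ : Fin n → W), Disjoint X Y ∧ (∀ x ∈ X, ψ x = φ x) ∧ (∀ y ∈ Y, deg T y < D) ∧
      Y.card ≤ B₀.card * r ∧ PlF T C V U G B₀ D (X ∪ Y) ψ ∧ NoB C V B₀ (X ∪ Y) ψ := by
  have hcard := thin_card hP r hr
  refine settle_aux hT hn hUV K hK (B₀.card * r) X φ hB hXB hD hKc (B₀.card * r) ∅ φ
    (Finset.disjoint_empty_right X) (fun x _ => rfl) (fun y hy => absurd hy (Finset.notMem_empty y)) ?_ ?_ ?_ ?_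
  · rw [Finset.union_empty]; exact hP
  · intro v
    rw [Finset.union_empty]
  · intro S hS _
    exact (Finset.card_le_card hS).trans hcard
  · simp

end H67.AF
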