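import Pool.Agent.H67.AF.BigF
import Pool.Agent.H67.AF.ThinF
import Pool.Agent.H67.AF.AllF
import Pool.Agent.H67.AF.IniF
import Pool.Agent.H67.AS.Bnd
import Pool.Agent.H67.AS.Fill

/-! # AF.PackF : the packing theorem (assembly)

`D = 64`, `B₀` = `h` and all vertices with `n ≤ 64 deg`, at most 129. `init_f`, `place_B`, `settle_thin`, `place_all_f`, then `avail_f` for the unused positions and `fill`. -/

namespace H67.AF

open SimpleGraph Pool.Agent.H62.Decomp H67.SG H67.AS

open Classical in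
theorem pack_f (r : ℕ) : ∃ N₁ : ℕ, ∀ L : ℕ, ∃ K n₀ : ℕ, ∀ n : ℕ, n₀ ≤ n → ∀ T : SimpleGraph (Fin n), T.IsTree →
    (∀ x, deg T x + K ≤ n) → ∀ h : Fin n, L ≤ (Finset.univ.filter (fun y => T.Adj h y ∧ deg T y = 1)).card →
      ∀ (W : Type) (C : SimpleGraph W) (V U G : Finset W) (w : W) (ρ : ℕ), Disjoint V U → G ⊆ V →
        n ≤ V.card + U.card → U.card ≤ L → 8 * V.card ≤ 8 * G.card + n → (∀ v ∈ V, dg C v V ≤ ρ) →
        (∀ v ∈ G, dg C v V ≤ r) → N₁ * (ρ + 1) ≤ n → w ∈ G → (∀ u ∈ U, ¬ C.Adj w u) → T ⊑ Cᶜ := by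
  refine ⟨4000 * (r + 1), ?_⟩
  intro L
  refine ⟨2 * ((L + 130) + 129 * r * 65) + 3, 1000 * (L + 1) * (r + 1) + 100000 * (r + 1), ?_⟩
  intro n hn T hT hK h hh W C V U G w ρ hUV hGV hVU hUL hVG hρ hr hN1 hw hwU
  have hn0 : 100000 * (r + 1) ≤ n := le_trans (Nat.le_add_left _ _) hn
  have hnL : 1000 * (L + 1) * (r + 1) ≤ n := le_trans (Nat.le_add_right _ _) hn
  clear hn
  have hnL2 : 1000 * ((L + 1) * (r + 1)) ≤ n := by
    rw [← Nat.mul_assoc]
    exact hnL
  have hnL' : 1000 * L ≤ n := by nlinarith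
  clear hnL
  have hρ1 : 4000 * (r * ρ + ρ) ≤ n := by nlinarith
  -- the set `B₀`
  obtain ⟨B₀, hB₀⟩ : ∃ B₀ : Finset (Fin n), B₀ = insert h (Finset.univ.filter (fun x : Fin n => n ≤ 64 * deg T x)) :=
    ⟨_, rfl⟩
  have hhB : h ∈ B₀ := by rw [hB₀]; exact Finset.mem_insert_self _ _
  have hBc : B₀.card ≤ 129 := by
    rw [hB₀]
    refine (Finset.card_insert_le _ _).trans ?_
    have := big_card_f T hT (by omega)
    have h2 : (Finset.univ.filter (fun x : Fin n => n ≤ 64 * deg T x)).card ≤ 128 := by convert this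
    omega
  have hB64 : ∀ x, x ∉ B₀ → 64 * deg T x < n := by
    intro x hx
    rw [hB₀, Finset.mem_insert, Finset.mem_filter] at hx
    push Not at hx
    exact hx.2 (Finset.mem_univ _)
  have hB2 : ∀ x ∈ B₀, x = h ∨ 2 ≤ deg T x := by
    intro x hx
    rw [hB₀, Finset.mem_insert, Finset.mem_filter] at hx
    rcases hx with hx | hx
    · exact Or.inl hx
    · right
      have := hx.2
      omega
  -- the start
  obtain ⟨X₀, φ₀, hP₀, hG₀, hl₀, hX₀⟩ := init_f (T := T) (C := C) hUV hGV (D := 64) (by norm_num) h hhB hB2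
    (le_trans hUL (by convert hh)) w hw hwU
  have hX₀L : X₀.card ≤ L + 1 := by omega
  -- the big vertices
  obtain ⟨X, φ, hX1, hX2, hX3, hφ, hP⟩ := place_B hUV hGV r ρ hρ hr X₀ φ₀ hP₀ (fun x hx hxV => (hG₀ x hx hxV).1) (by
    have a1 : (X₀.card + B₀.card) * (r + 1) ≤ (L + 130) * (r + 1) := Nat.mul_le_mul_right _ (by omega)
    have a2 : B₀.card * r * ρ ≤ 129 * r * ρ := Nat.mul_le_mul_right _ (Nat.mul_le_mul_right _ hBc)
    have a3 : (L + 130) * (r + 1) = (L + 1) * (r + 1) + 129 * (r + 1) := by ring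
    have a5 : 129 * r * ρ = 129 * (r * ρ) := by ring
    omega)
  have hXc : X.card ≤ L + 130 := by
    refine (Finset.card_le_card hX3).trans ((Finset.card_union_le _ _).trans ?_)
    omega
  have hXB : ∀ x ∈ X, φ x ∈ V → x ∈ B₀ := by
    intro x hx hxV
    rcases Finset.mem_union.1 (hX3 hx) with h1 | h1
    · rw [hφ x h1] at hxV
      exact (hG₀ x h1 hxV).2
    · exact h1
  -- the thin positions
  obtain ⟨Y, ψ, hXY, hψ, hYd, hYc, hP1, hN1⟩ := settle_thin hT (by omega) hUV hGV _ hK r hr X φ hP hX2 hXB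
    (by norm_num) (by
      have a1 : B₀.card * r * (64 + 1) ≤ 129 * r * 65 := Nat.mul_le_mul_right _ (Nat.mul_le_mul_right _ hBc)
      omega)
  have hYc' : Y.card ≤ 129 * r := hYc.trans (Nat.mul_le_mul_right _ hBc)
  have hlow : ∀ x ∈ X ∪ Y, x ∉ B₀ → deg T x < 64 := by
    intro x hx hxB
    rcases Finset.mem_union.1 hx with h1 | h1
    · rcases Finset.mem_union.1 (hX3 h1) with h2 | h2
      · exact hl₀ x h2 hxB
      · exact absurd h2 hxB
    · exact hYd x h1
  have hX1c : (X ∪ Y).card ≤ L + 130 + 129 * r := (Finset.card_union_le _ _).trans (by omega)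
  have hc₁ : ((X ∪ Y).filter (fun x => ψ x ∈ V)).card ≤ 129 + 129 * r := by
    have a1 : (X ∪ Y).filter (fun x => ψ x ∈ V) ⊆ B₀ ∪ Y := by
      intro x hx
      rw [Finset.mem_filter, Finset.mem_union] at hx
      rw [Finset.mem_union]
      rcases hx.1 with h1 | h1
      · left
        have h2 := hx.2
        rw [hψ x h1] at h2
        exact hXB x h1 h2
      · exact Or.inr h1
    exact (Finset.card_le_card a1).trans ((Finset.card_union_le _ _).trans (by omega))
  -- the hubs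
  have hhub := hubs_card T hT 64
  obtain ⟨H, hH⟩ : ∃ H : ℕ, H = (hubs T 64).card := ⟨_, rfl⟩
  rw [← hH] at hhub
  have hrr : r ≤ r + 1 := by omega
  obtain ⟨X', φ', hX'1, hX'2, hX'3, hX'4, hP', hN', hC'⟩ := place_all_f hT (by omega) hUV hGV hB64 r ρ hρ hr (X ∪ Y) ψ
    hP1 (hX2.trans Finset.subset_union_left) hN1 hlow (129 + 129 * r) (by convert hc₁) (by
      rw [← hH]
      have a1 : (129 + 129 * r + 16 * r + 1) * ρ = 130 * ρ + 145 * (r * ρ) := by ring
      rw [a1]
      omega) (by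
      rw [← hH]
      omega)
  rw [← hH] at hX'3
  have hXn : X'.card ≤ n := by
    have := Finset.card_le_univ X'
    rwa [Fintype.card_fin] at this
  -- the unused positions
  obtain ⟨Q₀, hQ₀⟩ : ∃ Q₀ : Finset W, Q₀ = V.filter (fun v => ∀ x ∈ X', φ' x ≠ v) := ⟨_, rfl⟩
  have hQ₀c : n ≤ Q₀.card + X'.card := by
    have b1 : V ⊆ Q₀ ∪ (X'.filter (fun x => φ' x ∈ V)).image φ' := by
      intro v hv
      rw [Finset.mem_union, hQ₀, Finset.mem_filter, Finset.mem_image]
      by_cases h : ∃ x ∈ X', φ' x = v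
      · obtain ⟨x, hx, rfl⟩ := h
        exact Or.inr ⟨x, Finset.mem_filter.2 ⟨hx, hv⟩, rfl⟩
      · push Not at h
        exact Or.inl ⟨hv, h⟩
    have b2 : U ⊆ (X'.filter (fun x => ¬ φ' x ∈ V)).image φ' := by
      intro u hu
      obtain ⟨x, hx, rfl⟩ := hP'.usedU u hu
      exact Finset.mem_image.2 ⟨x, Finset.mem_filter.2 ⟨hx, fun h => Finset.disjoint_left.1 hUV h hu⟩, rfl⟩
    have b3 := (Finset.card_le_card b1).trans (Finset.card_union_le _ _)
    have b4 := (Finset.card_le_card b2).trans Finset.card_image_le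
    have b5 : ((X'.filter (fun x => φ' x ∈ V)).image φ').card ≤ (X'.filter (fun x => φ' x ∈ V)).card :=
      Finset.card_image_le
    have b6 := Finset.card_filter_add_card_filter_not (s := X') (fun x => φ' x ∈ V)
    omega
  obtain ⟨Q, hQQ, hQc⟩ := Finset.exists_subset_card_eq (s := Q₀) (n := n - X'.card) (by omega)
  have hQV : Q ⊆ V := by
    refine hQQ.trans ?_
    rw [hQ₀]
    exact Finset.filter_subset _ _
  have hQf : ∀ v ∈ Q, ∀ x ∈ X', φ' x ≠ v := by
    intro v hv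
    have := hQQ hv
    rw [hQ₀] at this
    exact (Finset.mem_filter.1 this).2
  refine fill T C X' φ' Q 64 ρ (2 * (64 * ρ) + 64 + 2) hP'.inj (fun x hx hxQ => hQf _ hxQ x hx rfl) (by omega)
    ?_ ?_ ?_ ?_ (by omega) hP'.blue
  · intro y hy
    by_contra hcon
    exact hy (hX'2 (by
      unfold hubs
      exact Finset.mem_filter.2 ⟨Finset.mem_univ _, by omega⟩))
  · intro x hx y hy hxy
    have hxV : φ' x ∈ V := by
      rcases hP'.mem x hx with h | h
      · exact h
      · exact absurd (hP'.closed x hx h y hxy) hy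
    exact (dg_mono C _ hQV).trans (hρ _ hxV)
  · intro v hv
    exact (dg_mono C _ hQV).trans (hρ _ (hQV hv))
  · intro v hv
    have c1 := hC' v (hQV hv) (hQf v hv)
    have c4 := avail_f hP' v (hN' v (hQV hv) (hQf v hv)) (by omega) _ hX'4 (by
      rw [← hH]
      omega)
    have c6 : 2 * (64 * ρ) + 64 + 2 ≤ ((avail T C X' φ' v) \ hubs T 64).card := by omega
    refine c6.trans (Finset.card_le_card ?_)
    refine Finset.sdiff_subset.trans ?_
    intro y hy
    unfold avail at hy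
    convert hy

end H67.AF
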