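import Pool.Agent.H67.AF.InsF
import Pool.Agent.H67.AF.NumF

/-! # AF.SettleF : placing low vertices on the critical positions (about 130 lines; compare `H67.AS.Settle`)

Induction over `t`. If `CalmF` holds take `Y = ∅`. Otherwise there is an unused `v ∈ V` with `n ≤ 8 wtM v`. `t = 0` is impossible (`crit_bound_f`: `|Z| ≤ 16 r`). For `t + 1`: `avail_f` (with `c`) gives some `y ∈ avail \ hubs` (`n ≥ 1`); `y ∉ B₀` because `B₀ ⊆ X`.
`X' = insert y X`, `φ' = update φ y v`, `Z' = insert y Z`: `plf_insert`, `noB_insert`, `wtM_insert_low` (weights do not grow), `critF_mono` and, for `y`, `wtM_mono`; `lowV` grows by at most one. -/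

namespace H67.AF

open SimpleGraph Pool.Agent.H62.Decomp H67.SG H67.AS

theorem settle_f {n : ℕ} {W : Type} {T : SimpleGraph (Fin n)} (hT : T.IsTree) (hn : 1 ≤ n)
    {C : SimpleGraph W} {V U G : Finset W} {B₀ : Finset (Fin n)} {D : ℕ} (hUV : Disjoint V U)
    (r : ℕ) (hr : ∀ v ∈ G, dg C v V ≤ r) (c : ℕ) :
    ∀ (t : ℕ) (X : Finset (Fin n)) (φ : Fin n → W) (Z : Finset (Fin n)), PlF T C V U G B₀ D X φ → B₀ ⊆ X →
      NoB C V B₀ X φ → CritF T C V B₀ D X φ Z → 16 * r + 1 ≤ Z.card + t →
      (∀ v ∈ V, (∀ x ∈ X, φ x ≠ v) → 4 * wtM T C V B₀ D X φ v ≤ n) → (lowV T V D X φ).card + t ≤ c →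
      4 * (X.card + t + (hubs T D).card + c * D) ≤ n →
      ∃ (Y : Finset (Fin n)) (ψ : Fin n → W), Disjoint X Y ∧ (∀ x ∈ X, ψ x = φ x) ∧ (∀ y ∈ Y, deg T y < D) ∧
        PlF T C V U G B₀ D (X ∪ Y) ψ ∧ NoB C V B₀ (X ∪ Y) ψ ∧ CritF T C V B₀ D (X ∪ Y) ψ (Z ∪ Y) ∧
        CalmF T C V B₀ D (X ∪ Y) ψ := by
  intro t
  induction t with
  | zero =>
    intro X φ Z hP _ _ hZ hMZ _ _ _
    exfalso
    have h1 := crit_bound_f hT hP r hr Z hZ
    omega
  | succ t ih =>
    intro X φ Z hP hBX hNo hZ hMZ hW hlow hX
    by_cases hC : CalmF T C V B₀ D X φ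
    · refine ⟨∅, φ, Finset.disjoint_empty_right X, fun x _ => rfl, ?_, ?_, ?_, ?_, ?_⟩
      · intro y hy
        exact absurd hy (Finset.notMem_empty y)
      · rw [Finset.union_empty]; exact hP
      · rw [Finset.union_empty]; exact hNo
      · rw [Finset.union_empty, Finset.union_empty]; exact hZ
      · rw [Finset.union_empty]; exact hC
    unfold CalmF at hC
    push Not at hC
    obtain ⟨v, hv, hfree, hvw⟩ := hC
    have hWv := hW v hv hfree
    have hX1 : 4 * (X.card + (hubs T D).card + c * D) ≤ n :=
      le_trans (Nat.mul_le_mul_left _ (by omega)) hX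
    have hav := avail_f hP v (hNo v hv hfree) hWv c (by omega) hX1
    have hne : ((avail T C X φ v) \ hubs T D).Nonempty := by
      rw [Finset.nonempty_iff_ne_empty]
      intro h0
      rw [h0, Finset.card_empty, Nat.mul_zero] at hav
      omega
    obtain ⟨y, hy⟩ := hne
    rw [Finset.mem_sdiff] at hy
    obtain ⟨hya, hyh⟩ := hy
    obtain ⟨hyX, hblue⟩ : y ∉ X ∧ ∀ x ∈ X, T.Adj x y → ¬ C.Adj (φ x) v := by
      unfold avail at hya
      simpa using hya
    have hyD : deg T y < D := by
      unfold hubs at hyh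
      simpa using hyh
    have hyB : y ∉ B₀ := fun h => hyX (hBX h)
    have hne : ∀ x ∈ X, x ≠ y := fun x hx h => hyX (h ▸ hx)
    have hφ : ∀ x ∈ X, Function.update φ y v x = φ x := fun x hx => Function.update_of_ne (hne x hx) _ _
    have hφy : Function.update φ y v y = v := Function.update_self y v φ
    have hsub : X ⊆ insert y X := Finset.subset_insert y X
    have hP' : PlF T C V U G B₀ D (insert y X) (Function.update φ y v) :=
      plf_insert hP hUV y v hyX hv hfree hblue
        (fun h => h.elim (fun h1 => absurd h1 hyB) (fun h1 => absurd h1 (by omega))) (fun h => absurd h hyB)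
    have hNo' : NoB C V B₀ (insert y X) (Function.update φ y v) := noB_insert hNo y v hyX hyB
    have hyZ : y ∉ Z := fun h => hyX (hZ y h).1
    have hZ' : CritF T C V B₀ D (insert y X) (Function.update φ y v) (insert y Z) := by
      intro z hz
      rcases Finset.mem_insert.1 hz with h | h
      · subst h
        refine ⟨Finset.mem_insert_self _ _, by rw [hφy]; exact hv, ?_⟩
        rw [hφy]
        exact hvw.trans (Nat.mul_le_mul_left _ (wtM_mono T C V B₀ D hsub hφ v))
      · exact critF_mono hsub hφ hZ z h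
    have hcX : (insert y X).card = X.card + 1 := Finset.card_insert_of_notMem hyX
    have hcZ : (insert y Z).card = Z.card + 1 := Finset.card_insert_of_notMem hyZ
    have hW' : ∀ v' ∈ V, (∀ x ∈ insert y X, Function.update φ y v x ≠ v') →
        4 * wtM T C V B₀ D (insert y X) (Function.update φ y v) v' ≤ n := by
      intro v' hv' hf
      have h1 := hW v' hv' (fun x hx => by
        have h2 := hf x (hsub hx)
        rw [hφ x hx] at h2
        exact h2)
      exact le_trans (Nat.mul_le_mul_left _ (wtM_insert_low T C V B₀ D X φ y v hyX (Or.inr hyD) v')) h1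
    have hlow' : (lowV T V D (insert y X) (Function.update φ y v)).card + t ≤ c := by
      have hs : lowV T V D (insert y X) (Function.update φ y v) ⊆ insert y (lowV T V D X φ) := by
        classical
        intro x hx
        have hx' : x ∈ insert y X ∧ Function.update φ y v x ∈ V ∧ deg T x < D := by
          unfold lowV at hx
          rw [Finset.mem_filter] at hx
          exact hx
        rcases Finset.mem_insert.1 hx'.1 with h | h
        · rw [h]
          exact Finset.mem_insert_self _ _
        · apply Finset.mem_insert_of_mem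
          have h2 := hx'.2.1
          rw [hφ x h] at h2
          unfold lowV
          rw [Finset.mem_filter]
          exact ⟨h, h2, hx'.2.2⟩
      have h3 := Finset.card_le_card hs
      have h4 := Finset.card_insert_le y (lowV T V D X φ)
      omega
    have hX' : 4 * ((insert y X).card + t + (hubs T D).card + c * D) ≤ n := by
      refine le_trans (Nat.mul_le_mul_left _ ?_) hX
      omega
    obtain ⟨Y, ψ, hdis, hψ, hYD, hPψ, hNψ, hCψ, hCalm⟩ :=
      ih (insert y X) (Function.update φ y v) (insert y Z) hP' (hBX.trans hsub) hNo' hZ' (by omega) hW' hlow' hX'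
    have e1 : X ∪ insert y Y = insert y X ∪ Y := by
      rw [Finset.union_insert, Finset.insert_union]
    have e2 : Z ∪ insert y Y = insert y Z ∪ Y := by
      rw [Finset.union_insert, Finset.insert_union]
    refine ⟨insert y Y, ψ, ?_, ?_, ?_, ?_, ?_, ?_, ?_⟩
    · rw [Finset.disjoint_insert_right]
      exact ⟨hyX, Finset.disjoint_of_subset_left hsub hdis⟩
    · intro x hx
      rw [hψ x (hsub hx), hφ x hx]
    · intro z hz
      rcases Finset.mem_insert.1 hz with h | h
      · rw [h]; exact hyD
      · exact hYD z h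
    · rw [e1]; exact hPψ
    · rw [e1]; exact hNψ
    · rw [e1, e2]; exact hCψ
    · rw [e1]; exact hCalm

end H67.AF
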