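import Pool.Agent.H67.AF.PackF
import Pool.Agent.H67.AF.Alt
import Pool.Agent.H67.AF.NoF
import Pool.Agent.H67.AF.NumF
import Pool.Agent.H67.AS.UpperS

/-! # AF.UpperF : the upper bound (assembly, compare `H67.AS.UpperS`)

If all vertices of `T` have at most `L` leaves as neighbours `T` is `Undom T s 3` and `upper_s` applies. Otherwise as in `H67.AS.UpperS`; the classes `V i` are degenerate (`degen_of_noF`), `G i` = the vertices of `P i` with at most `r = 64 (a + 1)`
red neighbours in `V i`, all but `n / 8` vertices of `V i`; `typical` is applied to the sets `G i`, then `pack_f`. -/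

namespace H67.AF

open SimpleGraph Pool.Agent.H62.Decomp H67.SG H67.AS H57.SD

theorem upper_f (q m s : ℕ) (hq : 1 ≤ q) (hm : 1 ≤ m) (hs : 1 ≤ s) {A : Type} [Fintype A] (F : SimpleGraph A)
    (hF : F.IsAcyclic) : ∃ K n₀ : ℕ, ∀ n : ℕ, n₀ ≤ n → ∀ T : SimpleGraph (Fin n), T.IsTree →
    (∀ x, deg T x + K ≤ n) → ∀ (W : Type) [Fintype W] (C : SimpleGraph W),
      Fintype.card W = q * (n - 1) + s → ¬ HasS q m s C → ¬ HasF F q m C → T ⊑ Cᶜ := by
  classical
  obtain ⟨a, ha⟩ : ∃ a : ℕ, a = Fintype.card A := ⟨_, rfl⟩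
  obtain ⟨m', hm'⟩ : ∃ m' : ℕ, m' = m + s + a := ⟨_, rfl⟩
  obtain ⟨r, hr⟩ : ∃ r : ℕ, r = 64 * (a + 1) := ⟨_, rfl⟩
  obtain ⟨N₁, hpack⟩ := pack_f r
  obtain ⟨N₂, hN₂⟩ : ∃ N₂ : ℕ, N₂ = 16 := ⟨_, rfl⟩
  obtain ⟨τ, hτ⟩ : ∃ τ : ℝ, τ = 1 / (64 * ((N₁ : ℝ) + s + m' + 1)) := ⟨_, rfl⟩
  have hτ0 : 0 < τ := by rw [hτ]; positivity
  obtain ⟨L, δ₁, hδ₁, n₁, hbad⟩ := bad_bound q m' s hq (by omega) τ hτ0
  obtain ⟨M₂, δ₂, hδ₂, n₂, htyp⟩ := typical q m' s L hq (by omega)
  obtain ⟨K, n₄, hpack2⟩ := hpack (L + 1)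
  obtain ⟨n₆, halt⟩ := undom_of_few_leaves s L
  obtain ⟨n₇, hups⟩ := upper_s q m s 3 hq hm hs (by norm_num)
  obtain ⟨δ, hδd⟩ : ∃ δ : ℝ, δ = min (min δ₁ δ₂) (1 / (1000 * (((q : ℝ) + 1) * ((m' : ℝ) + 1) *
    ((N₁ : ℝ) + N₂ + s + m' + 1)))) := ⟨_, rfl⟩
  have hδ0 : 0 < δ := by
    rw [hδd]
    refine lt_min (lt_min hδ₁ hδ₂) (by positivity)
  have hδ1 : δ ≤ δ₁ := by rw [hδd]; exact le_trans (min_le_left _ _) (min_le_left _ _)
  have hδ2 : δ ≤ δ₂ := by rw [hδd]; exact le_trans (min_le_left _ _) (min_le_right _ _)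
  have hδ3 := (min_le_right (min δ₁ δ₂) (1 / (1000 * (((q : ℝ) + 1) * ((m' : ℝ) + 1) *
    ((N₁ : ℝ) + N₂ + s + m' + 1)))))
  rw [← hδd] at hδ3
  obtain ⟨ε, hε, n₃, hst⟩ := stab q hq m' (by omega) δ hδ0
  obtain ⟨n₅, hn₅⟩ : ∃ n₅ : ℕ, n₅ = 1000 * (N₁ + N₂ + s + m' + 1) * (s + m' + 2) := ⟨_, rfl⟩
  refine ⟨K, n₁ + n₂ + n₃ + n₄ + n₆ + n₇ + ⌈(q : ℝ) / ε⌉₊ + n₅ + 1, ?_⟩
  intro n hn T hT hdK W _ C hW hS₀ hF₀
  have hS : ¬ HasS q m' s C := by
    intro h
    obtain ⟨S, Z, hSc, hZ, g1, g2⟩ := h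
    have hsub : ∀ j, ∃ Z' ⊆ Z j, Z'.card = m := fun j =>
      Finset.exists_subset_card_eq (by rw [hZ j]; omega)
    choose Z' hZ'1 hZ'2 using hsub
    exact hS₀ ⟨S, Z', hSc, hZ'2, fun j z hz x hx => g1 j z (hZ'1 j hz) x hx,
      fun j l hjl y hy z hz => g2 j l hjl y (hZ'1 j hy) z (hZ'1 l hz)⟩
  by_cases hleaf : ∀ x, (Finset.univ.filter (fun y => T.Adj x y ∧ deg T y = 1)).card ≤ L
  · exact hups n (by omega) T hT (halt n (by omega) T hT (fun x => by convert hleaf x)) W C hW hS₀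
  push Not at hleaf
  obtain ⟨h₀, hh₀⟩ := hleaf
  by_contra hfree
  obtain ⟨hn4, hn5, hn6, hn7, hn8, hn9⟩ := us_num q m' s N₁ N₂ τ δ hτ hδ0 hδ3 n
    (by rw [← hn₅]; omega)
  obtain ⟨e, he⟩ : ∃ e : ℕ, e = ⌊δ * n⌋₊ := ⟨_, rfl⟩
  obtain ⟨t, ht⟩ : ∃ t : ℕ, t = ⌈τ * n⌉₊ := ⟨_, rfl⟩
  rw [← he, ← ht] at hn4 hn5 hn6
  rw [← he] at hn7 hn8
  have hn1 : 1 ≤ n := by omega
  have hnR : (0 : ℝ) < n := by exact_mod_cast hn1
  have hWn : n ≤ Fintype.card W := by
    rw [hW]
    have : 1 * (n - 1) ≤ q * (n - 1) := Nat.mul_le_mul_right _ hq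
    omega
  have hsn : s ≤ n := by
    have h2 : s ≤ n₅ := by
      rw [hn₅]
      nlinarith
    omega
  have hWq : Fintype.card W ≤ (q + 1) * n := by
    rw [hW]
    have h1 : q * (n - 1) ≤ q * n := Nat.mul_le_mul_left _ (Nat.sub_le _ _)
    have h2 : (q + 1) * n = q * n + n := by ring
    omega
  -- stability
  have hsz0 : ((q : ℝ) - ε) * n ≤ ((Finset.univ : Finset W).card : ℝ) := by
    rw [Finset.card_univ, hW]
    push_cast [Nat.cast_sub hn1]
    have h1 : (q : ℝ) / ε ≤ n := by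
      have h2 : ((⌈(q : ℝ) / ε⌉₊ : ℕ) : ℝ) ≤ n := by exact_mod_cast (by omega : ⌈(q : ℝ) / ε⌉₊ ≤ n)
      exact le_trans (Nat.le_ceil _) h2
    have h3 : (q : ℝ) ≤ ε * n := by
      rw [div_le_iff₀ hε] at h1
      linarith
    have hs0 : (0 : ℝ) ≤ s := Nat.cast_nonneg s
    nlinarith
  have hKno : ¬ HasK (q + 1) m' C Finset.univ := by
    rintro ⟨P, -, hPc, hPa⟩
    obtain ⟨S, hSP, hSc⟩ := Finset.exists_subset_card_eq (s := P (Fin.last q)) (n := s) (by rw [hPc]; omega)
    refine hS ⟨S, fun j => P j.castSucc, hSc, fun j => hPc _, ?_, ?_⟩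
    · intro j z hz x hx
      exact hPa _ _ (Fin.castSucc_lt_last j).ne' x (hSP hx) z hz
    · intro j l hjl y hy z hz
      exact hPa _ _ (fun h => hjl (Fin.castSucc_injective q h)) y hy z hz
  obtain ⟨P, -, hdis, hsz, hszn, hin, hcr⟩ := hst n (by omega) T hT W C Finset.univ hfree hsz0 hKno
  have hPe : ∀ i, n ≤ (P i).card + e := by
    intro i
    by_contra hcon
    have h1 : (P i).card + e + 1 ≤ n := by omega
    have h2 : ((P i).card : ℝ) + e + 1 ≤ n := by exact_mod_cast h1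
    have h3 : δ * n < (e : ℝ) + 1 := by rw [he]; exact Nat.lt_floor_add_one _
    have h4 := hsz i
    nlinarith
  have hine : ∀ i, ∀ x ∈ P i, dg C x (P i) ≤ e := fun i x hx => by
    rw [he]; exact Nat.le_floor (hin i x hx)
  have hcre : ∀ i j, i ≠ j → ∀ x ∈ P i, nd C x (P j) ≤ e := fun i j hij x hx => by
    rw [he]; exact Nat.le_floor (hcr i j hij x hx)
  -- bad vertices
  obtain ⟨B, hBd⟩ : ∃ B : Finset W, B = Finset.univ.filter (fun x => ∀ i, τ * n ≤ (dg C x (P i) : ℝ)) := ⟨_, rfl⟩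
  have hBc : B.card ≤ L := by
    apply hbad n (by omega) W C P hWn hWq hszn _ hS B
    · intro x hx
      rw [hBd] at hx
      exact (Finset.mem_filter.mp hx).2
    · intro i j hij x hx
      exact le_trans (hcr i j hij x hx) (mul_le_mul_of_nonneg_right hδ1 hnR.le)
  have hBP : ∀ i, ∀ x ∈ P i, x ∉ B := by
    intro i x hx hxB
    rw [hBd] at hxB
    have h1 := (Finset.mem_filter.mp hxB).2 i
    have h2 := hin i x hx
    linarith
  have hexc : ∀ x, ∃ c : Fin q, (∀ i, x ∈ P i → i = c) ∧ (x ∉ B → (dg C x (P c) : ℝ) < τ * n) := by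
    intro x
    by_cases h : ∃ i, x ∈ P i
    · obtain ⟨i, hi⟩ := h
      refine ⟨i, fun j hj => ?_, fun _ => lt_of_le_of_lt (hin i x hi) hn9⟩
      by_contra hji
      exact Finset.disjoint_left.mp (hdis j i hji) hj hi
    · push Not at h
      by_cases hxB : x ∈ B
      · exact ⟨⟨0, hq⟩, fun i hi => absurd hi (h i), fun hx => absurd hxB hx⟩
      · have : ∃ i, (dg C x (P i) : ℝ) < τ * n := by
          by_contra hcon
          push Not at hcon
          exact hxB (by rw [hBd]; exact Finset.mem_filter.mpr ⟨Finset.mem_univ _, hcon⟩)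
        obtain ⟨i, hi⟩ := this
        exact ⟨i, fun j hj => absurd hj (h j), fun _ => hi⟩
  choose c hc1 hc2 using hexc
  obtain ⟨V, hV⟩ : ∃ V : Fin q → Finset W, V = fun i => Finset.univ.filter (fun x => x ∉ B ∧ c x = i) := ⟨_, rfl⟩
  have hmV : ∀ i x, x ∈ V i ↔ (x ∉ B ∧ c x = i) := by
    intro i x
    rw [hV]
    simp
  have hPV : ∀ i, P i ⊆ V i := by
    intro i x hx
    rw [hmV]
    exact ⟨hBP i x hx, (hc1 x i hx).symm⟩
  have hVlow : ∀ i, ∀ y ∈ V i, dg C y (P i) ≤ t := by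
    intro i y hy
    obtain ⟨hyB, hyc⟩ := (hmV i y).1 hy
    have h1 := hc2 y hyB
    rw [hyc] at h1
    have : (dg C y (P i) : ℝ) < t := lt_of_lt_of_le h1 (by rw [ht]; exact Nat.le_ceil _)
    exact le_of_lt (by exact_mod_cast this)
  have hVcr : ∀ i, ∀ y ∈ V i, ∀ j, j ≠ i → nd C y (P j) ≤ 2 * (t + 2 * e + 1) := by
    intro i y hy j hji
    obtain ⟨hyB, hyc⟩ := (hmV i y).1 hy
    by_cases h : ∃ l, y ∈ P l
    · obtain ⟨l, hl⟩ := h
      have hli : l = i := (hc1 y l hl).trans hyc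
      have h1 := hcre l j (by rw [hli]; exact hji.symm) y hl
      omega
    · push Not at h
      have h1 := hc2 y hyB
      rw [hyc] at h1
      have h2 : dg C y (P i) < t := by
        have : (dg C y (P i) : ℝ) < t := lt_of_lt_of_le h1 (by rw [ht]; exact Nat.le_ceil _)
        exact_mod_cast this
      exact asg_one T hT C hfree (P i) (P j) (hdis i j hji.symm) e t (hPe i) (hPe j) (hine i) (hine j) hn4 y (h i) (h j) h2
  -- the classes are pairwise disjoint, their sizes
  have hVdis : ∀ i j, i ≠ j → Disjoint (V i) (V j) := by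
    intro i j hij
    rw [Finset.disjoint_left]
    intro x hx hx'
    exact hij (((hmV i x).1 hx).2.symm.trans ((hmV j x).1 hx').2)
  have hsumV : ∑ i, (V i).card + B.card = Fintype.card W := by
    have h1 : (Finset.univ.filter (fun x => x ∉ B)).card = ∑ i : Fin q, (V i).card := by
      rw [Finset.card_eq_sum_card_fiberwise (f := c) (t := Finset.univ) (fun x _ => Finset.mem_univ _)]
      apply Finset.sum_congr rfl
      intro i _
      rw [Finset.filter_filter, hV]
    have h2 := Finset.card_filter_add_card_filter_not (s := (Finset.univ : Finset W)) (fun x => x ∈ B)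
    rw [Finset.filter_mem_eq_inter, Finset.univ_inter, Finset.card_univ] at h2
    omega
  have hVP : ∀ i, (V i).card ≤ (P i).card + (q * e + s) := by
    intro i
    have h1 : ∑ j ∈ Finset.univ.erase i, (V j).card + (V i).card = ∑ j, (V j).card :=
      Finset.sum_erase_add _ _ (Finset.mem_univ i)
    have h2 : (q - 1) * (n - e) ≤ ∑ j ∈ Finset.univ.erase i, (V j).card := by
      have h3 : ∑ _j ∈ (Finset.univ : Finset (Fin q)).erase i, (n - e) ≤ ∑ j ∈ Finset.univ.erase i, (V j).card := by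
        apply Finset.sum_le_sum
        intro j _
        have := Finset.card_le_card (hPV j)
        have := hPe j
        omega
      rw [Finset.sum_const, Finset.card_erase_of_mem (Finset.mem_univ i), Finset.card_univ, Fintype.card_fin,
        smul_eq_mul] at h3
      exact h3
    have h4 := hPe i
    obtain ⟨p, rfl⟩ : ∃ p, q = p + 1 := ⟨q - 1, by omega⟩
    have h5 : (p + 1 - 1) * (n - e) + p * e = p * n := by
      rw [Nat.add_sub_cancel, ← Nat.mul_add]
      congr 1
      omega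
    have h6 : (p + 1) * (n - 1) + (p + 1) = p * n + n := by
      have : (p + 1) * (n - 1) + (p + 1) = (p + 1) * (n - 1 + 1) := by ring
      rw [this, Nat.sub_add_cancel hn1]
      ring
    have h7 : (p + 1) * e = p * e + e := by ring
    omega
  have hVdeg : ∀ i, Degen C (V i) a := by
    intro i
    rw [ha]
    refine degen_of_noF F hF C q m n e (2 * (t + 2 * e + 1)) P i (V i) hPe hcre (hVcr i) ?_ hF₀
    rw [← ha]
    refine le_trans ?_ hn5
    have e1 : a * (2 * (t + 2 * e + 1)) ≤ (s + m') * (2 * (t + 2 * e + 1)) := Nat.mul_le_mul_right _ (by omega)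
    have e2 : q * m * e ≤ q * m' * e := Nat.mul_le_mul_right _ (Nat.mul_le_mul_left _ (by omega))
    omega
  have hdgV : ∀ i x, dg C x (V i) ≤ dg C x (P i) + (q * e + s) := by
    intro i x
    have h1 : dg C x (V i) ≤ dg C x (P i) + (V i \ P i).card := by
      unfold dg
      have : (V i).filter (fun y => C.Adj x y) ⊆ (P i).filter (fun y => C.Adj x y) ∪ (V i \ P i) := by
        intro y hy
        rw [Finset.mem_filter] at hy
        rw [Finset.mem_union, Finset.mem_filter, Finset.mem_sdiff]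
        by_cases h : y ∈ P i
        · exact Or.inl ⟨h, hy.2⟩
        · exact Or.inr ⟨hy.1, h⟩
      exact (Finset.card_le_card this).trans (Finset.card_union_le _ _)
    have h2 := Finset.card_sdiff_add_card_eq_card (hPV i)
    have h3 := hVP i
    omega
  -- the good positions
  have hqe : 16 * (q * e + s) ≤ n := by
    rw [hN₂] at hn7
    have h2 : (q + 1) * e = q * e + e := by ring
    omega
  obtain ⟨G, hGd⟩ : ∃ G : Fin q → Finset W, G = fun i => (P i).filter (fun x => dg C x (V i) ≤ r) := ⟨_, rfl⟩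
  have hmG : ∀ i x, x ∈ G i ↔ (x ∈ P i ∧ dg C x (V i) ≤ r) := by
    intro i x
    rw [hGd]
    simp
  have hGc : ∀ i, 8 * (V i).card ≤ 8 * (G i).card + n := by
    intro i
    have h1 := few_high C (V i) a r (hVdeg i)
    have h2 := hVP i
    have h3 := hszn i
    have h4 : (V i).card ≤ 2 * n := by omega
    have h5 : ((V i).filter (fun x => r < dg C x (V i))).card * r ≤ 2 * a * (2 * n) :=
      le_trans h1 (Nat.mul_le_mul_left _ h4)
    have h6 : 16 * ((V i).filter (fun x => r < dg C x (V i))).card ≤ n := by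
      by_contra hcon
      push Not at hcon
      have h7 : n * (4 * (a + 1)) < 16 * ((V i).filter (fun x => r < dg C x (V i))).card * (4 * (a + 1)) :=
        Nat.mul_lt_mul_of_pos_right hcon (by omega)
      have h8 : 16 * ((V i).filter (fun x => r < dg C x (V i))).card * (4 * (a + 1)) =
          ((V i).filter (fun x => r < dg C x (V i))).card * r := by
        rw [hr]
        ring
      rw [h8] at h7
      have h9 : 2 * a * (2 * n) = n * (4 * a) := by ring
      rw [h9] at h5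
      have h10 : n * (4 * a) ≤ n * (4 * (a + 1)) := Nat.mul_le_mul_left _ (by omega)
      omega
    have h7 : V i ⊆ G i ∪ ((V i \ P i) ∪ (V i).filter (fun x => r < dg C x (V i))) := by
      intro x hx
      rw [Finset.mem_union, Finset.mem_union, Finset.mem_sdiff, Finset.mem_filter, hmG]
      by_cases h : x ∈ P i
      · by_cases h' : dg C x (V i) ≤ r
        · exact Or.inl ⟨h, h'⟩
        · exact Or.inr (Or.inr ⟨hx, by omega⟩)
      · exact Or.inr (Or.inl ⟨hx, h⟩)
    have h8 := (Finset.card_le_card h7).trans (Finset.card_union_le _ _)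
    have h9 := Finset.card_union_le (V i \ P i) ((V i).filter (fun x => r < dg C x (V i)))
    have h10 := Finset.card_sdiff_add_card_eq_card (hPV i)
    omega
  -- the tuple
  obtain ⟨w, hwG, hws, hwB⟩ := htyp n (by omega) W C G B hWn hWq
    (fun i => (Finset.card_le_card (fun x hx => ((hmG i x).1 hx).1)).trans (hszn i))
    (fun i => by
      have h1 := hGc i
      have h2 := Finset.card_le_card (hPV i)
      have h3 := hPe i
      omega)
    (fun i j hij x hx => by
      have h1 : nd C x (G j) ≤ nd C x (P j) := nd_mono C x (fun y hy => ((hmG j y).1 hy).1)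
      have h2 : (nd C x (G j) : ℝ) ≤ nd C x (P j) := by exact_mod_cast h1
      exact h2.trans (le_trans (hcr i j hij x ((hmG i x).1 hx).1) (mul_le_mul_of_nonneg_right hδ2 hnR.le))) hBc hS
  have hexd : ∀ u, ∃ d : Fin q, (∃ i, ¬ C.Adj u (w i)) → ¬ C.Adj u (w d) := by
    intro u
    by_cases h : ∃ i, ¬ C.Adj u (w i)
    · obtain ⟨i, hi⟩ := h
      exact ⟨i, fun _ => hi⟩
    · exact ⟨⟨0, hq⟩, fun h' => absurd h' h⟩
  choose d hd using hexd
  obtain ⟨U, hUd⟩ : ∃ U : Fin q → Finset W, U = fun i => B.filter (fun u => ¬ C.Adj u (w i) ∧ d u = i) := ⟨_, rfl⟩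
  have hmU : ∀ i u, u ∈ U i ↔ (u ∈ B ∧ ¬ C.Adj u (w i) ∧ d u = i) := by
    intro i u
    rw [hUd]
    simp
  have hsumU : B.card < ∑ i, (U i).card + s := by
    have h1 : B ⊆ (Finset.univ.biUnion U) ∪ B.filter (fun u => ∀ i, C.Adj u (w i)) := by
      intro u hu
      rw [Finset.mem_union, Finset.mem_biUnion, Finset.mem_filter]
      by_cases h : ∀ i, C.Adj u (w i)
      · exact Or.inr ⟨hu, h⟩
      · push Not at h
        exact Or.inl ⟨d u, Finset.mem_univ _, (hmU _ _).2 ⟨hu, hd u h, rfl⟩⟩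
    have h2 := (Finset.card_le_card h1).trans (Finset.card_union_le _ _)
    have h3 : (Finset.univ.biUnion U).card ≤ ∑ i, (U i).card := Finset.card_biUnion_le
    have h4 : (B.filter (fun u => ∀ i, C.Adj u (w i))).card < s := by
      convert hws
    omega
  have hpig : ∃ i, n ≤ (V i).card + (U i).card := by
    by_contra hcon
    push Not at hcon
    have h1 : ∑ i : Fin q, ((V i).card + (U i).card) ≤ ∑ _i : Fin q, (n - 1) :=
      Finset.sum_le_sum (fun i _ => by have := hcon i; omega)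
    rw [Finset.sum_add_distrib, Finset.sum_const, Finset.card_univ, Fintype.card_fin, smul_eq_mul] at h1
    omega
  obtain ⟨i, hi⟩ := hpig
  apply hfree
  refine hpack2 n (by omega) T hT hdK h₀ ?_ W C (V i) (U i) (G i) (w i) (t + (q * e + s)) ?_
    (fun x hx => hPV i ((hmG i x).1 hx).1) hi ?_ (hGc i) ?_ (fun x hx => ((hmG i x).1 hx).2) ?_ (hwG i) ?_
  · have h1 : L + 1 ≤ (Finset.univ.filter (fun y => T.Adj h₀ y ∧ deg T y = 1)).card := hh₀
    convert h1
  · rw [Finset.disjoint_left]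
    intro x hx hxU
    exact ((hmV i x).1 hx).1 ((hmU i x).1 hxU).1
  · refine le_trans (le_trans (Finset.card_le_card ?_) hBc) (Nat.le_succ _)
    intro x hx
    exact ((hmU i x).1 hx).1
  · intro v hv
    exact (hdgV i v).trans (Nat.add_le_add_right (hVlow i v hv) _)
  · refine le_trans (Nat.mul_le_mul_left _ ?_) hn6
    have h3 : (q + 1) * e = q * e + e := by ring
    omega
  · intro u hu h
    exact ((hmU i u).1 hu).2.1 h.symm

end H67.AF
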